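import Mathlib
import Pool.Agent.TH940.YM.Stm
set_option autoImplicit false
namespace Pool.Agent.TH311.YM_INV
open Pool.Agent.W793.SCH Pool.Agent.TH940.YM

/-- The Wick product depends only on the entries belonging to the list. -/
theorem wpr_congr {ι : Type*} (A B : ι → ι → ℝ) (X Z : ι → ℝ) :
    ∀ (N : ℕ) (l : List ι), l.length ≤ N → (∀ u ∈ l, ∀ v ∈ l, A u v = B u v) →
      (∀ u ∈ l, X u = Z u) → wpr A X l = wpr B Z l := by
  intro N
  induction N with
  | zero =>
    intro l hl _ _
    have : l = [] := List.length_eq_zero_iff.mp (by omega)
    subst this
    simp [wpr]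
  | succ N ih =>
    intro l hl hA hX
    cases l with
    | nil => simp [wpr]
    | cons a l =>
      have hl' : l.length ≤ N := by simpa using hl
      rw [wpr, wpr]
      congr 1
      · rw [hX a (by simp), ih l hl' (fun u hu v hv => hA u (by simp [hu]) v (by simp [hv]))
          (fun u hu => hX u (by simp [hu]))]
      · refine Finset.sum_congr rfl fun i _ => ?_
        have h1 : l.get i ∈ l := List.get_mem l i
        rw [hA a (by simp) (l.get i) (List.mem_cons_of_mem _ h1)]
        congr 1
        refine ih _ ?_ ?_ ?_
        · have := List.length_eraseIdx_of_lt i.isLt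
          omega
        · intro u hu v hv
          exact hA u (List.mem_cons_of_mem _ (List.mem_of_mem_eraseIdx hu)) v
            (List.mem_cons_of_mem _ (List.mem_of_mem_eraseIdx hv))
        · intro u hu
          exact hX u (List.mem_cons_of_mem _ (List.mem_of_mem_eraseIdx hu))

/-- Weighted sums over the colourings. -/
noncomputable def I {n m : ℕ} (w : Fin m → Fin n → ℝ) (F : (Fin m → Fin n) → ℝ) : ℝ :=
  ∑ c : Fin m → Fin n, (∏ j, w j (c j)) * F c

theorem prod_split {n m : ℕ} (w : Fin m → Fin n → ℝ) (a : Fin m) (c : Fin m → Fin n) :
    ∏ j, w j (c j) = w a (c a) * ∏ j ∈ Finset.univ.erase a, w j (c j) :=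
  (Finset.mul_prod_erase Finset.univ (fun j => w j (c j)) (Finset.mem_univ a)).symm

theorem I_indep {n m : ℕ} (w : Fin m → Fin n → ℝ) (a : Fin m) (δ : Fin n → ℝ)
    (hδ : ∑ k, δ k = 1) (F : (Fin m → Fin n) → ℝ)
    (hF : ∀ c k, F (Function.update c a k) = F c) :
    I w F = (∑ k, w a k) * I (Function.update w a δ) F := by
  have h1 : I w F = ∑ p : (Fin m → Fin n) × Fin n,
      δ p.2 * ((w a (p.1 a) * ∏ j ∈ Finset.univ.erase a, w j (p.1 j)) * F p.1) := by
    rw [Fintype.sum_prod_type]
    unfold I
    refine Finset.sum_congr rfl fun c _ => ?_
    simp only
    rw [← Finset.sum_mul, hδ, one_mul, prod_split w a c]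
  have h2 : (∑ k, w a k) * I (Function.update w a δ) F = ∑ p : (Fin m → Fin n) × Fin n,
      w a p.2 * ((δ (p.1 a) * ∏ j ∈ Finset.univ.erase a, w j (p.1 j)) * F p.1) := by
    rw [Fintype.sum_prod_type, Finset.sum_mul, Finset.sum_comm]
    refine Finset.sum_congr rfl fun k _ => ?_
    unfold I
    rw [Finset.mul_sum]
    refine Finset.sum_congr rfl fun c _ => ?_
    simp only
    rw [prod_split (Function.update w a δ) a c, Function.update_self]
    congr 3
    refine Finset.prod_congr rfl fun j hj => ?_
    rw [Function.update_of_ne (Finset.ne_of_mem_erase hj)]
  rw [h1, h2]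
  let e : ((Fin m → Fin n) × Fin n) ≃ ((Fin m → Fin n) × Fin n) :=
    { toFun := fun p => (Function.update p.1 a p.2, p.1 a)
      invFun := fun p => (Function.update p.1 a p.2, p.1 a)
      left_inv := by
        intro p
        simp
      right_inv := by
        intro p
        simp }
  refine Fintype.sum_equiv e _ _ fun p => ?_
  simp only [e, Equiv.coe_fn_mk, Function.update_self, hF]
  have : ∏ j ∈ Finset.univ.erase a, w j (Function.update p.1 a p.2 j) =
      ∏ j ∈ Finset.univ.erase a, w j (p.1 j) := by
    refine Finset.prod_congr rfl fun j hj => ?_
    rw [Function.update_of_ne (Finset.ne_of_mem_erase hj)]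
  rw [this]
  ring

theorem I_add {n m : ℕ} {κ : Type*} (s : Finset κ) (w : Fin m → Fin n → ℝ)
    (F : κ → (Fin m → Fin n) → ℝ) :
    I w (fun c => ∑ k ∈ s, F k c) = ∑ k ∈ s, I w (F k) := by
  unfold I
  rw [Finset.sum_comm]
  refine Finset.sum_congr rfl fun c _ => ?_
  rw [Finset.mul_sum]

theorem I_smul {n m : ℕ} (w : Fin m → Fin n → ℝ) (r : ℝ) (F : (Fin m → Fin n) → ℝ) :
    I w (fun c => r * F c) = r * I w F := by
  unfold I
  rw [Finset.mul_sum]
  refine Finset.sum_congr rfl fun c _ => ?_
  ring

theorem I_sub {n m : ℕ} (w : Fin m → Fin n → ℝ) (F G : (Fin m → Fin n) → ℝ) :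
    I w (fun c => F c - G c) = I w F - I w G := by
  unfold I
  rw [← Finset.sum_sub_distrib]
  refine Finset.sum_congr rfl fun c _ => ?_
  ring

theorem I_weight {n m : ℕ} (w : Fin m → Fin n → ℝ) (a : Fin m) (g : Fin n → ℝ)
    (F : (Fin m → Fin n) → ℝ) :
    I w (fun c => g (c a) * F c) = I (Function.update w a (fun k => w a k * g k)) F := by
  unfold I
  refine Finset.sum_congr rfl fun c _ => ?_
  rw [prod_split w a c, prod_split (Function.update w a _) a c, Function.update_self]
  have : ∏ j ∈ Finset.univ.erase a, Function.update w a (fun k => w a k * g k) j (c j) =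
      ∏ j ∈ Finset.univ.erase a, w j (c j) := by
    refine Finset.prod_congr rfl fun j hj => ?_
    rw [Function.update_of_ne (Finset.ne_of_mem_erase hj)]
  rw [this]
  ring

/-- One coordinate integrated out with a weight. -/
theorem I_one {n m : ℕ} (w : Fin m → Fin n → ℝ) (a : Fin m) (g δ : Fin n → ℝ)
    (hδ : ∑ k, δ k = 1) (F : (Fin m → Fin n) → ℝ)
    (hF : ∀ c k, F (Function.update c a k) = F c) :
    I w (fun c => g (c a) * F c) = (∑ k, w a k * g k) * I (Function.update w a δ) F := by
  rw [I_weight, I_indep _ a δ hδ F hF, Function.update_self, Function.update_idem]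

/-- Two coordinates with equal colours. -/
theorem I_two {n m : ℕ} (w : Fin m → Fin n → ℝ) (a b : Fin m) (hab : a ≠ b) (δ : Fin n → ℝ)
    (hδ : ∑ k, δ k = 1) (F : (Fin m → Fin n) → ℝ)
    (hF : ∀ c k, F (Function.update c a k) = F c) (hG : ∀ c k, F (Function.update c b k) = F c) :
    I w (fun c => (if c a = c b then 1 else 0) * F c) =
      (∑ k, w a k * w b k) * I (Function.update (Function.update w a δ) b δ) F := by
  have h1 : (fun c : Fin m → Fin n => (if c a = c b then (1 : ℝ) else 0) * F c) =
      fun c => ∑ k, (if c a = k then (1 : ℝ) else 0) * ((if c b = k then (1 : ℝ) else 0) * F c) := by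
    funext c
    rw [Finset.sum_eq_single (c b)]
    · simp
    · intro k _ hk
      simp [Ne.symm hk]
    · simp
  rw [h1, I_add, Finset.sum_mul]
  refine Finset.sum_congr rfl fun k _ => ?_
  have h2 := I_one w a (fun x => if x = k then (1 : ℝ) else 0) δ hδ
    (fun c => (if c b = k then (1 : ℝ) else 0) * F c) (by
      intro c x
      simp only [hF, Function.update_of_ne (Ne.symm hab)])
  rw [h2]
  have h3 := I_one (Function.update w a δ) b (fun x => if x = k then (1 : ℝ) else 0) δ hδ F hG
  rw [h3, Function.update_of_ne (Ne.symm hab)]
  simp only [mul_ite, mul_one, mul_zero, Finset.sum_ite_eq', Finset.mem_univ, if_true]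
  ring

theorem key {n m : ℕ} (C : Fin m → Fin m → ℝ) (Y : Fin m → Fin n → ℝ) :
    ∀ (N : ℕ) (l : List (Fin m)), l.length ≤ N → l.Nodup → ∀ (w : Fin m → Fin n → ℝ),
      (∀ j, j ∉ l → ∑ k, w j k = 1) →
      I w (fun c => wpr (fun j j' => if c j = c j' then C j j' else 0) (fun j => Y j (c j)) l) =
        wpr (fun j j' => C j j' * ∑ k, w j k * w j' k) (fun j => ∑ k, w j k * Y j k) l := by
  intro N
  induction N with
  | zero =>
    intro l hl _ w hw
    have : l = [] := List.length_eq_zero_iff.mp (by omega)
    subst this
    simp only [wpr]
    unfold I
    simp only [mul_one]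
    rw [← Fintype.piFinset_univ, ← Finset.prod_univ_sum]
    exact Finset.prod_eq_one fun j _ => hw j (by simp)
  | succ N ih =>
    intro l hl hnd w hw
    cases l with
    | nil =>
      simp only [wpr]
      unfold I
      simp only [mul_one]
      rw [← Fintype.piFinset_univ, ← Finset.prod_univ_sum]
      exact Finset.prod_eq_one fun j _ => hw j (by simp)
    | cons a l =>
      have hl' : l.length ≤ N := by simpa using hl
      have hal : a ∉ l := (List.nodup_cons.mp hnd).1
      have hnl : l.Nodup := (List.nodup_cons.mp hnd).2
      rcases Nat.eq_zero_or_pos n with hn | hn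
      · subst hn
        rw [wpr]
        unfold I
        have : IsEmpty (Fin m → Fin 0) := ⟨fun c => Fin.elim0 (c a)⟩
        simp
      · obtain ⟨n', rfl⟩ : ∃ n', n = n' + 1 := ⟨n - 1, by omega⟩
        set δ : Fin (n' + 1) → ℝ := Pi.single 0 1 with hδdef
        have hδ : ∑ k, δ k = 1 := by simp [hδdef]
        have e1 : (fun c : Fin m → Fin (n' + 1) =>
            wpr (fun j j' => if c j = c j' then C j j' else 0) (fun j => Y j (c j)) (a :: l)) =
            fun c => (Y a (c a) *
              wpr (fun j j' => if c j = c j' then C j j' else 0) (fun j => Y j (c j)) l) -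
              ∑ i : Fin l.length, C a (l.get i) * ((if c a = c (l.get i) then 1 else 0) *
                wpr (fun j j' => if c j = c j' then C j j' else 0) (fun j => Y j (c j))
                  (l.eraseIdx i)) := by
          funext c
          rw [wpr]
          congr 1
          refine Finset.sum_congr rfl fun i _ => ?_
          split_ifs <;> ring
        rw [e1, I_sub, I_add, wpr]
        congr 1
        · have h := I_one w a (fun k => Y a k) δ hδ
            (fun c => wpr (fun j j' => if c j = c j' then C j j' else 0) (fun j => Y j (c j)) l) (by
              intro c k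
              refine wpr_congr _ _ _ _ l.length l le_rfl ?_ ?_
              · intro u hu v hv
                have hua : u ≠ a := fun h => hal (h ▸ hu)
                have hva : v ≠ a := fun h => hal (h ▸ hv)
                rw [Function.update_of_ne hua, Function.update_of_ne hva]
              · intro u hu
                have hua : u ≠ a := fun h => hal (h ▸ hu)
                rw [Function.update_of_ne hua])
          rw [h, ih l hl' hnl (Function.update w a δ) ?_]
          · congr 1
            refine wpr_congr _ _ _ _ l.length l le_rfl ?_ ?_
            · intro u hu v hv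
              have hua : u ≠ a := fun h => hal (h ▸ hu)
              have hva : v ≠ a := fun h => hal (h ▸ hv)
              rw [Function.update_of_ne hua, Function.update_of_ne hva]
            · intro u hu
              have hua : u ≠ a := fun h => hal (h ▸ hu)
              rw [Function.update_of_ne hua]
          · intro j hj
            by_cases hja : j = a
            · subst hja
              rw [Function.update_self]
              exact hδ
            · rw [Function.update_of_ne hja]
              exact hw j (by simp [hja, hj])
        · refine Finset.sum_congr rfl fun i _ => ?_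
          rw [I_smul]
          set b := l.get i with hb
          have hbl : b ∈ l := List.get_mem l i
          have hab : a ≠ b := fun h => hal (h ▸ hbl)
          have hbe : b ∉ l.eraseIdx i := by
            rw [List.mem_eraseIdx_iff_getElem]
            rintro ⟨k, hk, hki, hkb⟩
            apply hki
            have := (List.Nodup.getElem_inj_iff hnl (hi := hk) (hj := i.isLt)).mp (by
              rw [hkb, hb]; rfl)
            exact this
          have hae : a ∉ l.eraseIdx i := fun h => hal (List.mem_of_mem_eraseIdx h)
          have hF : ∀ x : Fin m, x ∉ l.eraseIdx i → ∀ (c : Fin m → Fin (n' + 1)) (k : Fin (n' + 1)),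
              wpr (fun j j' => if Function.update c x k j = Function.update c x k j' then C j j'
                else 0) (fun j => Y j (Function.update c x k j)) (l.eraseIdx i) =
              wpr (fun j j' => if c j = c j' then C j j' else 0) (fun j => Y j (c j))
                (l.eraseIdx i) := by
            intro x hx c k
            refine wpr_congr _ _ _ _ _ _ le_rfl ?_ ?_
            · intro u hu v hv
              have hua : u ≠ x := fun h => hx (h ▸ hu)
              have hva : v ≠ x := fun h => hx (h ▸ hv)
              rw [Function.update_of_ne hua, Function.update_of_ne hva]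
            · intro u hu
              have hua : u ≠ x := fun h => hx (h ▸ hu)
              rw [Function.update_of_ne hua]
          rw [I_two w a b hab δ hδ _ (hF a hae) (hF b hbe)]
          rw [ih (l.eraseIdx i) ?_ ?_ _ ?_]
          · rw [← mul_assoc]
            congr 1
            refine wpr_congr _ _ _ _ _ _ le_rfl ?_ ?_
            · intro u hu v hv
              have hua : u ≠ a := fun h => hae (h ▸ hu)
              have hva : v ≠ a := fun h => hae (h ▸ hv)
              have hub : u ≠ b := fun h => hbe (h ▸ hu)
              have hvb : v ≠ b := fun h => hbe (h ▸ hv)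
              rw [Function.update_of_ne hub, Function.update_of_ne hvb, Function.update_of_ne hua,
                Function.update_of_ne hva]
            · intro u hu
              have hua : u ≠ a := fun h => hae (h ▸ hu)
              have hub : u ≠ b := fun h => hbe (h ▸ hu)
              rw [Function.update_of_ne hub, Function.update_of_ne hua]
          · have := List.length_eraseIdx_of_lt i.isLt
            omega
          · exact hnl.eraseIdx _
          · intro j hj
            by_cases hjb : j = b
            · subst hjb
              rw [Function.update_self]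
              exact hδ
            · rw [Function.update_of_ne hjb]
              by_cases hja : j = a
              · subst hja
                rw [Function.update_self]
                exact hδ
              · rw [Function.update_of_ne hja]
                refine hw j ?_
                intro hmem
                rcases List.mem_cons.mp hmem with h | h
                · exact hja h
                · apply hj
                  rw [List.mem_eraseIdx_iff_getElem]
                  obtain ⟨k, hk, hkj⟩ := List.getElem_of_mem h
                  refine ⟨k, hk, ?_, hkj⟩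
                  intro hki
                  apply hjb
                  rw [← hkj, hb]
                  subst hki
                  rfl

theorem t_INV : S_INV := by
  intro n m C T O Y hO hT
  have hk : ∀ b : Fin m → Fin n,
      wpr (fun j j' => if b j = b j' then C j j' else 0) (fun j => ∑ a, O (b j) a * Y j a)
        (List.finRange m) =
      ∑ c : Fin m → Fin n, (∏ j, O (b j) (c j)) *
        wpr (fun j j' => if c j = c j' then C j j' else 0) (fun j => Y j (c j))
          (List.finRange m) := by
    intro b
    have h := key C Y m (List.finRange m) (by simp) (List.nodup_finRange m) (fun j => O (b j))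
      (by intro j hj; exact absurd (List.mem_finRange j) hj)
    unfold I at h
    rw [h]
    congr 1
    funext j j'
    rw [hO (b j) (b j')]
    split_ifs <;> simp
  unfold WT
  calc ∑ c : Fin m → Fin n, T c * wpr (fun j j' => if c j = c j' then C j j' else 0)
        (fun j => ∑ a, O (c j) a * Y j a) (List.finRange m)
      = ∑ b : Fin m → Fin n, ∑ c : Fin m → Fin n, ((∏ j, O (b j) (c j)) * T b) *
          wpr (fun j j' => if c j = c j' then C j j' else 0) (fun j => Y j (c j))
            (List.finRange m) := by
        refine Finset.sum_congr rfl fun b _ => ?_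
        rw [hk b, Finset.mul_sum]
        refine Finset.sum_congr rfl fun c _ => ?_
        ring
    _ = ∑ c : Fin m → Fin n, T c * wpr (fun j j' => if c j = c j' then C j j' else 0)
          (fun j => Y j (c j)) (List.finRange m) := by
        rw [Finset.sum_comm]
        refine Finset.sum_congr rfl fun c _ => ?_
        rw [← Finset.sum_mul, ← hT c]

end Pool.Agent.TH311.YM_INV
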