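import Mathlib
import Pool.Agent.TH940.YM.Stm
import Pool.Agent.W453.SCH.HB
import Pool.Agent.W446.SCH.HL
import Pool.Agent.W374.SCH.GI
import Pool.Agent.W557.SCH.FR
import Pool.Agent.W252.SCH.SUP
import Pool.Agent.W750.SCH.GG

/-!
# All differences of the lattice Green function at large distances

The lattice Green function is the integral over time of the product of the one dimensional heat
kernels. The differences of the heat kernel of any order are bounded by shifting the contour of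
integration (following the case of orders at most two in `W453`), their scaling limits are the
derivatives of the Gaussian heat kernel, and the derivatives of the second derivatives of the
continuum Green function are obtained by differentiation under the integral.
-/

set_option autoImplicit false

open MeasureTheory Filter
open scoped Topology

namespace Pool.Agent.TH311.YM_KERJ

open Pool.Agent.W793.SCH Pool.Agent.TH940.YM

noncomputable section

/-! ### the differences of the heat kernel on the integers -/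

/-- the forward differences of the heat kernel -/
def fd : ℕ → ℝ → ℤ → ℝ
  | 0, t, n => hk t n
  | r + 1, t, n => fd r t (n + 1) - fd r t n

section bounds

open Complex

/-- the integrand -/
def F (r : ℕ) (t : ℝ) (n : ℤ) (z : ℂ) : ℂ :=
  exp (I * (n * z)) * (exp (I * z) - 1) ^ r * exp (-(t * (2 - 2 * cos z)))

theorem F_diff (r : ℕ) (t : ℝ) (n : ℤ) : Differentiable ℂ (F r t n) := by
  unfold F
  fun_prop

theorem F_per (r : ℕ) (t : ℝ) (n : ℤ) (z : ℂ) : F r t n (z + 2 * Real.pi) = F r t n z := by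
  unfold F
  rw [Pool.Agent.W453.SCH.exp_per, Pool.Agent.W453.SCH.exp_per1, Complex.cos_add_two_pi]

theorem F_succ (r : ℕ) (t : ℝ) (n : ℤ) (z : ℂ) :
    F (r + 1) t n z = F r t (n + 1) z - F r t n z := by
  unfold F
  have : exp (I * (((n + 1 : ℤ) : ℂ) * z)) = exp (I * (n * z)) * exp (I * z) := by
    rw [← Complex.exp_add]
    congr 1
    push_cast
    ring
  rw [this, pow_succ]
  ring

theorem shift (r : ℕ) (t : ℝ) (n : ℤ) (a : ℝ) :
    ∫ x in (-Real.pi)..Real.pi, F r t n (x : ℂ) =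
      ∫ x in (-Real.pi)..Real.pi, F r t n (x + a * I) := by
  have h := Complex.integral_boundary_rect_eq_zero_of_differentiableOn (F r t n)
    (-Real.pi : ℂ) (Real.pi + a * I) ((F_diff r t n).differentiableOn)
  have e1 : (-Real.pi : ℂ).re = -Real.pi := by simp
  have e2 : (-Real.pi : ℂ).im = 0 := by simp
  have e3 : (Real.pi + a * I : ℂ).re = Real.pi := by simp
  have e4 : (Real.pi + a * I : ℂ).im = a := by simp
  rw [e1, e2, e3, e4] at h
  have h5 : ∀ y : ℝ, F r t n ((Real.pi : ℝ) + y * I) = F r t n (((-Real.pi : ℝ) : ℂ) + y * I) := by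
    intro y
    rw [← F_per r t n (((-Real.pi : ℝ) : ℂ) + y * I)]
    congr 1
    push_cast
    ring
  simp only [h5] at h
  have h6 : (∫ x in (-Real.pi)..Real.pi, F r t n ((x : ℂ) + ((0 : ℝ) : ℂ) * I)) =
      ∫ x in (-Real.pi)..Real.pi, F r t n (x : ℂ) := by
    congr 1
    ext x
    simp
  rw [h6] at h
  have h7 : (∫ x in (-Real.pi)..Real.pi, F r t n (x : ℂ)) -
      (∫ x in (-Real.pi)..Real.pi, F r t n (x + a * I)) = 0 := by
    simpa using h
  exact sub_eq_zero.1 h7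

theorem F_int (r : ℕ) (t : ℝ) (n : ℤ) (a b : ℝ) :
    IntervalIntegrable (fun x : ℝ => F r t n (x : ℂ)) volume a b := by
  apply Continuous.intervalIntegrable
  exact (F_diff r t n).continuous.comp Complex.continuous_ofReal

theorem fd_eq (r : ℕ) (t : ℝ) (n : ℤ) : fd r t n =
    1 / (2 * Real.pi) * (∫ x in (-Real.pi)..Real.pi, F r t n (x : ℂ)).re := by
  induction r generalizing n with
  | zero =>
    rw [fd, Pool.Agent.W453.SCH.hk_eq]
    have : ∀ x : ℂ, F 0 t n x = Pool.Agent.W453.SCH.F 0 t n x := by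
      intro x
      simp [F, Pool.Agent.W453.SCH.F, Pool.Agent.W453.SCH.w]
    simp only [this]
  | succ r ih =>
    rw [fd, ih, ih]
    simp only [F_succ]
    rw [intervalIntegral.integral_sub (F_int _ _ _ _ _) (F_int _ _ _ _ _), Complex.sub_re]
    ring

theorem fd_le (r : ℕ) (t : ℝ) (n : ℤ) (a : ℝ) : |fd r t n| ≤
    1 / (2 * Real.pi) * ‖∫ x in (-Real.pi)..Real.pi, F r t n (x + a * I)‖ := by
  rw [fd_eq r, shift r t n a, abs_mul, abs_of_pos (by positivity)]
  gcongr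
  exact Complex.abs_re_le_norm _

theorem w_norm (r : ℕ) (x a : ℝ) (hx : |x| ≤ Real.pi) (ha : |a| ≤ 1) :
    ‖(exp (I * (x + a * I)) - 1) ^ r‖ ≤ (Real.exp (Real.pi + 1) * (|x| + |a|)) ^ r := by
  have hz := Pool.Agent.W453.SCH.z_norm x a
  have h1 : ‖exp (I * (x + a * I)) - 1‖ ≤ Real.exp (Real.pi + 1) * (|x| + |a|) := by
    have h2 : ‖I * ((x : ℂ) + a * I)‖ ≤ |x| + |a| := by
      rw [norm_mul, Complex.norm_I, one_mul]
      exact hz
    refine (Pool.Agent.W453.SCH.exp1 _ (h2.trans (by linarith))).trans ?_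
    gcongr
  rw [norm_pow]
  gcongr

theorem F_norm (r : ℕ) (t : ℝ) (ht : 0 ≤ t) (n : ℤ) (x a : ℝ) (hx : |x| ≤ Real.pi)
    (ha : |a| ≤ 1) : ‖F r t n (x + a * I)‖ ≤ Real.exp (-(n * a)) *
      (Real.exp (Real.pi + 1) * (|x| + |a|)) ^ r *
        Real.exp (2 * t * (a ^ 2 - 2 / Real.pi ^ 2 * x ^ 2)) := by
  unfold F
  rw [norm_mul, norm_mul]
  have h1 : ‖exp (I * (n * ((x : ℂ) + a * I)))‖ = Real.exp (-(n * a)) := by
    rw [Complex.norm_exp]
    congr 1
    simp
  rw [h1]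
  have h2 := w_norm r x a hx ha
  have h3 := Pool.Agent.W453.SCH.e_norm t ht x a hx ha
  gcongr

/-- the constant of the absorption -/
def Kc (r : ℕ) : ℝ := Real.exp 4 * (Real.exp 1 * (r.factorial : ℝ) * (Real.pi ^ 2) ^ r)

theorem Kc_pos (r : ℕ) : 0 < Kc r := by
  unfold Kc
  positivity

/-- the Gaussian factor absorbs the polynomial -/
theorem absorb (r : ℕ) (t : ℝ) (ht : 0 ≤ t) (x a : ℝ) (hx : |x| ≤ Real.pi) :
    (|x| + |a|) ^ r * Real.exp (2 * t * (-(2 / Real.pi ^ 2 * x ^ 2))) ≤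
      Kc r * ((1 + Real.sqrt (1 + t) * |a|) / Real.sqrt (1 + t)) ^ r *
        Real.exp (-(2 / Real.pi ^ 2 * (1 + t)) * x ^ 2) := by
  set s := Real.sqrt (1 + t) with hs
  have hs0 : 0 < s := Real.sqrt_pos.2 (by linarith)
  have hs2 : s ^ 2 = 1 + t := Real.sq_sqrt (by linarith)
  have hpi : 0 < Real.pi := Real.pi_pos
  have h1 : (|x| + |a|) ^ r ≤ ((1 + s * |a|) / s) ^ r * (1 + s * |x|) ^ r := by
    have h2 : |x| + |a| ≤ (1 + s * |a|) / s * (1 + s * |x|) := by
      rw [div_mul_eq_mul_div, le_div_iff₀ hs0]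
      nlinarith [mul_nonneg (mul_nonneg hs0.le (abs_nonneg a)) (mul_nonneg hs0.le (abs_nonneg x))]
    calc (|x| + |a|) ^ r ≤ ((1 + s * |a|) / s * (1 + s * |x|)) ^ r := by gcongr
      _ = ((1 + s * |a|) / s) ^ r * (1 + s * |x|) ^ r := mul_pow _ _ _
  set W : ℝ := 2 / Real.pi ^ 2 * (1 + t) * x ^ 2 with hW
  have hW0 : 0 ≤ W := by positivity
  have h3 : 1 + s * |x| ≤ Real.pi ^ 2 * (1 + W) := by
    have e1 : (s * |x|) ^ 2 = (1 + t) * x ^ 2 := by rw [mul_pow, hs2, sq_abs]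
    have e2 : Real.pi ^ 2 * (1 + W) = Real.pi ^ 2 + 2 * ((1 + t) * x ^ 2) := by
      rw [hW]
      field_simp
    rw [e2, ← e1]
    have h7 : (9 : ℝ) ≤ Real.pi ^ 2 := by nlinarith [Real.pi_gt_three]
    nlinarith [sq_nonneg (s * |x| - 1)]
  have h4 : (1 + W) ^ r ≤ Real.exp 1 * (r.factorial : ℝ) * Real.exp W := by
    have h := Real.pow_div_factorial_le_exp (1 + W) (by positivity) r
    rw [div_le_iff₀ (by positivity)] at h
    refine h.trans (le_of_eq ?_)
    rw [Real.exp_add]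
    ring
  have h5 : (1 + s * |x|) ^ r ≤ (Real.exp 1 * (r.factorial : ℝ) * (Real.pi ^ 2) ^ r) *
      Real.exp W := by
    calc (1 + s * |x|) ^ r ≤ (Real.pi ^ 2 * (1 + W)) ^ r := by gcongr
      _ = (Real.pi ^ 2) ^ r * (1 + W) ^ r := mul_pow _ _ _
      _ ≤ (Real.pi ^ 2) ^ r * (Real.exp 1 * (r.factorial : ℝ) * Real.exp W) := by gcongr
      _ = _ := by ring
  have h8 : Real.exp (2 * t * (-(2 / Real.pi ^ 2 * x ^ 2))) =
      Real.exp (4 / Real.pi ^ 2 * x ^ 2) * Real.exp (-(4 / Real.pi ^ 2 * (1 + t)) * x ^ 2) := by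
    rw [← Real.exp_add]
    congr 1
    ring
  have h9 : Real.exp (4 / Real.pi ^ 2 * x ^ 2) ≤ Real.exp 4 := by
    apply Real.exp_le_exp.2
    have : x ^ 2 ≤ Real.pi ^ 2 := by
      rw [← sq_abs x]
      gcongr
    rw [div_mul_eq_mul_div, div_le_iff₀ (by positivity)]
    linarith
  have h10 : Real.exp W * Real.exp (-(4 / Real.pi ^ 2 * (1 + t)) * x ^ 2) =
      Real.exp (-(2 / Real.pi ^ 2 * (1 + t)) * x ^ 2) := by
    rw [← Real.exp_add, hW]
    congr 1
    ring
  rw [h8]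
  calc (|x| + |a|) ^ r * (Real.exp (4 / Real.pi ^ 2 * x ^ 2) *
        Real.exp (-(4 / Real.pi ^ 2 * (1 + t)) * x ^ 2))
      ≤ (((1 + s * |a|) / s) ^ r * ((Real.exp 1 * (r.factorial : ℝ) * (Real.pi ^ 2) ^ r) *
        Real.exp W)) *
        (Real.exp 4 * Real.exp (-(4 / Real.pi ^ 2 * (1 + t)) * x ^ 2)) := by
        have h11 := h1.trans (mul_le_mul_of_nonneg_left h5
          (pow_nonneg (div_nonneg (by positivity) hs0.le) r))
        gcongr
    _ = (Real.exp 4 * (Real.exp 1 * (r.factorial : ℝ) * (Real.pi ^ 2) ^ r)) *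
        ((1 + s * |a|) / s) ^ r *
        (Real.exp W * Real.exp (-(4 / Real.pi ^ 2 * (1 + t)) * x ^ 2)) := by ring
    _ = _ := by
      rw [h10]
      rfl

theorem absF (r : ℕ) (t : ℝ) (ht : 0 ≤ t) (n : ℤ) (x a : ℝ) (hx : |x| ≤ Real.pi)
    (ha : |a| ≤ 1) : ‖F r t n (x + a * I)‖ ≤
      (Real.exp (Real.pi + 1) ^ r * Kc r * Real.exp (-(n * a) + 2 * t * a ^ 2) *
        ((1 + Real.sqrt (1 + t) * |a|) / Real.sqrt (1 + t)) ^ r) *
        Real.exp (-(2 / Real.pi ^ 2 * (1 + t)) * x ^ 2) := by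
  have h1 := F_norm r t ht n x a hx ha
  have h2 := absorb r t ht x a hx
  have h3 : Real.exp (2 * t * (a ^ 2 - 2 / Real.pi ^ 2 * x ^ 2)) =
      Real.exp (2 * t * a ^ 2) * Real.exp (2 * t * (-(2 / Real.pi ^ 2 * x ^ 2))) := by
    rw [← Real.exp_add]
    congr 1
    ring
  rw [h3, mul_pow] at h1
  rw [Real.exp_add (-(n * a)) (2 * t * a ^ 2)]
  calc ‖F r t n (x + a * I)‖ ≤ Real.exp (-(n * a)) *
        (Real.exp (Real.pi + 1) ^ r * (|x| + |a|) ^ r) *
          (Real.exp (2 * t * a ^ 2) * Real.exp (2 * t * (-(2 / Real.pi ^ 2 * x ^ 2)))) := h1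
    _ = (Real.exp (-(n * a)) * Real.exp (2 * t * a ^ 2)) * (Real.exp (Real.pi + 1) ^ r *
        ((|x| + |a|) ^ r * Real.exp (2 * t * (-(2 / Real.pi ^ 2 * x ^ 2))))) := by ring
    _ ≤ (Real.exp (-(n * a)) * Real.exp (2 * t * a ^ 2)) * (Real.exp (Real.pi + 1) ^ r *
        (Kc r * ((1 + Real.sqrt (1 + t) * |a|) / Real.sqrt (1 + t)) ^ r *
        Real.exp (-(2 / Real.pi ^ 2 * (1 + t)) * x ^ 2))) := by
      gcongr
    _ = _ := by ring

/-- the bound for all tilts -/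
theorem tilt (r : ℕ) (t : ℝ) (ht : 0 ≤ t) (n : ℤ) (a : ℝ) (ha : |a| ≤ 1) :
    |fd r t n| ≤ (Real.exp (Real.pi + 1) ^ r * Kc r *
      Real.sqrt (Real.pi ^ 3)) / Real.sqrt (1 + t) ^ (r + 1) *
      (Real.exp (-(n * a) + 2 * t * a ^ 2) * (1 + Real.sqrt (1 + t) * |a|) ^ r) := by
  set s := Real.sqrt (1 + t) with hs
  have hs0 : 0 < s := Real.sqrt_pos.2 (by linarith)
  set b := 2 / Real.pi ^ 2 * (1 + t) with hb
  have hpi : 0 < Real.pi := Real.pi_pos
  have hb0 : 0 < b := by positivity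
  have hKc := Kc_pos r
  set K := Real.exp (Real.pi + 1) ^ r * Kc r with hK
  have hK0 : 0 < K := by positivity
  set E := Real.exp (-(n * a) + 2 * t * a ^ 2) with hE
  have hE0 : 0 < E := Real.exp_pos _
  have h1 := fd_le r t n a
  have h2 : ‖∫ x in (-Real.pi)..Real.pi, F r t n (x + a * I)‖ ≤
      ∫ x in (-Real.pi)..Real.pi, (K * E * ((1 + s * |a|) / s) ^ r) * Real.exp (-b * x ^ 2) := by
    apply intervalIntegral.norm_integral_le_of_norm_le (by linarith)
    · filter_upwards with x hx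
      have hx' : |x| ≤ Real.pi := abs_le.2 ⟨hx.1.le, hx.2⟩
      exact absF r t ht n x a hx' ha
    · apply Continuous.intervalIntegrable
      fun_prop
  rw [intervalIntegral.integral_const_mul] at h2
  have h3 := Pool.Agent.W453.SCH.gauss_le b hb0
  have h4 : Real.sqrt (Real.pi / b) ≤ Real.sqrt (Real.pi ^ 3) / s := by
    rw [hs, ← Real.sqrt_div (by positivity)]
    apply Real.sqrt_le_sqrt
    rw [hb, div_le_div_iff₀ (by positivity) (by linarith)]
    have : Real.pi ^ 3 * (2 / Real.pi ^ 2 * (1 + t)) = 2 * (Real.pi * (1 + t)) := by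
      field_simp
    rw [this]
    nlinarith [mul_pos hpi (by linarith : 0 < 1 + t)]
  have h5 : 1 / (2 * Real.pi) ≤ 1 := by
    rw [div_le_one (by positivity)]
    linarith [Real.pi_gt_three]
  have hc : 0 ≤ K * E * ((1 + s * |a|) / s) ^ r := by positivity
  calc |fd r t n| ≤ 1 / (2 * Real.pi) *
        ‖∫ x in (-Real.pi)..Real.pi, F r t n (x + a * I)‖ := h1
    _ ≤ 1 * ((K * E * ((1 + s * |a|) / s) ^ r) * (Real.sqrt (Real.pi ^ 3) / s)) := by
      have h6 := h2.trans (mul_le_mul_of_nonneg_left (h3.trans h4) hc)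
      gcongr
    _ = _ := by
      rw [div_pow]
      field_simp
      ring

theorem core (M r : ℕ) : ∃ D : ℝ, 0 < D ∧ ∀ t : ℝ, 0 ≤ t → ∀ n : ℤ, ∃ a : ℝ, |a| ≤ 1 ∧
    Real.exp (-(n * a) + 2 * t * a ^ 2) * (1 + Real.sqrt (1 + t) * |a|) ^ r ≤
      D * ((1 + t) / (1 + t + n ^ 2)) ^ M := by
  set P : ℕ → ℝ := fun k => 8 ^ k * (k.factorial : ℝ) * Real.exp 1 with hP
  have hP0 : ∀ k, 0 < P k := fun k => by positivity
  have hPa := hP0 (M + r)
  have hPb := hP0 (2 * M + r)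
  refine ⟨2 ^ r * P (M + r) + 2 ^ r * P (2 * M + r), by positivity,
    fun t ht n => ?_⟩
  set s := Real.sqrt (1 + t) with hs
  have ht1 : 0 < 1 + t := by linarith
  have hs0 : 0 < s := Real.sqrt_pos.2 ht1
  have hs2 : s ^ 2 = 1 + t := Real.sq_sqrt ht1.le
  set N : ℝ := |(n : ℝ)| with hN
  have hN0 : 0 ≤ N := abs_nonneg _
  have hN2 : (n : ℝ) ^ 2 = N ^ 2 := (sq_abs _).symm
  set x : ℝ := N ^ 2 / (1 + t) with hx
  have hx0 : 0 ≤ x := by positivity
  have hq : ((1 + t) / (1 + t + (n : ℝ) ^ 2)) ^ M = 1 / (1 + x) ^ M := by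
    rw [hN2, ← one_div_pow]
    congr 1
    rw [hx]
    field_simp
  have hq0 : 0 < (1 + x) ^ M := by positivity
  rw [hq]
  have hA : 0 ≤ 2 ^ r * P (M + r) := by positivity
  have hB : 0 ≤ 2 ^ r * P (2 * M + r) := by positivity
  by_cases hc : N ≤ 4 * (1 + t)
  · refine ⟨n / (4 * (1 + t)), ?_, ?_⟩
    · rw [abs_div, abs_of_pos (by linarith : 0 < 4 * (1 + t)), div_le_one (by linarith)]
      exact hc
    · have h1 : Real.exp (-(n * (n / (4 * (1 + t)))) + 2 * t * (n / (4 * (1 + t))) ^ 2) ≤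
          Real.exp (-(x / 8)) := by
        apply Real.exp_le_exp.2
        have h2 : (n : ℝ) * (n / (4 * (1 + t))) = x / 4 := by
          rw [hx, ← hN2]
          field_simp
        have h3 : 2 * t * ((n : ℝ) / (4 * (1 + t))) ^ 2 = x / 8 * (t / (1 + t)) := by
          rw [hx, ← hN2]
          field_simp
          ring
        have h4 : t / (1 + t) ≤ 1 := by
          rw [div_le_one ht1]
          linarith
        rw [h2, h3]
        nlinarith
      have h5 : (s * |(n : ℝ) / (4 * (1 + t))|) ^ 2 = x / 16 := by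
        rw [mul_pow, sq_abs, hs2, hx, ← hN2]
        field_simp
        ring
      set u := s * |(n : ℝ) / (4 * (1 + t))| with hu
      have hu0 : 0 ≤ u := by positivity
      have h6 : (1 + u) ^ r ≤ 2 ^ r * (1 + x) ^ r := by
        rw [← mul_pow]
        apply pow_le_pow_left₀ (by positivity)
        nlinarith [sq_nonneg (1 - u)]
      have h7 := Pool.Agent.W453.SCH.poly (M + r) x hx0
      have h8 : Real.exp (-(x / 8)) * Real.exp (x / 8) = 1 := by
        rw [← Real.exp_add]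
        simp
      rw [mul_one_div, le_div_iff₀ hq0]
      calc Real.exp (-(n * (n / (4 * (1 + t)))) + 2 * t * (n / (4 * (1 + t))) ^ 2) *
            (1 + u) ^ r * (1 + x) ^ M ≤ Real.exp (-(x / 8)) * (2 ^ r * (1 + x) ^ r) *
              (1 + x) ^ M := by
            gcongr
        _ = 2 ^ r * Real.exp (-(x / 8)) * (1 + x) ^ (M + r) := by ring
        _ ≤ 2 ^ r * Real.exp (-(x / 8)) * (P (M + r) * Real.exp (x / 8)) := by
            gcongr
        _ = 2 ^ r * P (M + r) * (Real.exp (-(x / 8)) * Real.exp (x / 8)) := by ring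
        _ = 2 ^ r * P (M + r) := by rw [h8, mul_one]
        _ ≤ _ := by linarith
  · push Not at hc
    have hNp : 0 < N := by linarith
    have key : ∀ a : ℝ, |a| = 1 → n * a = N → |a| ≤ 1 ∧
        Real.exp (-(n * a) + 2 * t * a ^ 2) * (1 + s * |a|) ^ r ≤
          (2 ^ r * P (M + r) + 2 ^ r * P (2 * M + r)) * (1 / (1 + x) ^ M) := by
      intro a ha hna
      refine ⟨ha.le, ?_⟩
      have ha2 : a ^ 2 = 1 := by rw [← sq_abs, ha, one_pow]
      rw [ha, ha2, hna, mul_one, mul_one]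
      have h1 : Real.exp (-N + 2 * t) ≤ Real.exp (-(N / 8)) := by
        apply Real.exp_le_exp.2
        linarith
      have h6 : (1 + s) ^ r ≤ 2 ^ r * (1 + N) ^ r := by
        rw [← mul_pow]
        apply pow_le_pow_left₀ (by positivity)
        nlinarith [sq_nonneg (1 - s)]
      have h9 : (1 + x) ^ M ≤ (1 + N) ^ (2 * M) := by
        rw [pow_mul]
        have : x ≤ N ^ 2 := by
          rw [hx]
          apply div_le_self (sq_nonneg N)
          linarith
        gcongr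
        nlinarith
      have h7 := Pool.Agent.W453.SCH.poly (2 * M + r) N hN0
      have h8 : Real.exp (-(N / 8)) * Real.exp (N / 8) = 1 := by
        rw [← Real.exp_add]
        simp
      rw [mul_one_div, le_div_iff₀ hq0]
      calc Real.exp (-N + 2 * t) * (1 + s) ^ r * (1 + x) ^ M
          ≤ Real.exp (-(N / 8)) * (2 ^ r * (1 + N) ^ r) * (1 + N) ^ (2 * M) := by
            gcongr
        _ = 2 ^ r * Real.exp (-(N / 8)) * (1 + N) ^ (2 * M + r) := by ring
        _ ≤ 2 ^ r * Real.exp (-(N / 8)) * (P (2 * M + r) * Real.exp (N / 8)) := by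
            gcongr
        _ = 2 ^ r * P (2 * M + r) * (Real.exp (-(N / 8)) * Real.exp (N / 8)) := by ring
        _ = 2 ^ r * P (2 * M + r) := by rw [h8, mul_one]
        _ ≤ _ := by linarith
    rcases le_or_gt 0 (n : ℝ) with h0 | h0
    · exact ⟨1, key 1 (by simp) (by rw [mul_one, hN, abs_of_nonneg h0])⟩
    · exact ⟨-1, key (-1) (by simp) (by rw [hN, abs_of_neg h0]; ring)⟩

/-- Bounds for the differences of the heat kernel on the integers. -/
theorem t_HB (M r : ℕ) : ∃ C : ℝ, 0 < C ∧ ∀ t : ℝ, 0 ≤ t → ∀ n : ℤ,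
    |fd r t n| ≤ C / Real.sqrt (1 + t) ^ (r + 1) * ((1 + t) / (1 + t + n ^ 2)) ^ M := by
  obtain ⟨D, hD, h⟩ := core M r
  have hKc := Kc_pos r
  refine ⟨(Real.exp (Real.pi + 1) ^ r * Kc r * Real.sqrt (Real.pi ^ 3)) * D,
    by positivity, fun t ht n => ?_⟩
  obtain ⟨a, ha, h1⟩ := h t ht n
  refine (tilt r t ht n a ha).trans ?_
  have hs0 : 0 < Real.sqrt (1 + t) := Real.sqrt_pos.2 (by linarith)
  calc _ ≤ (Real.exp (Real.pi + 1) ^ r * Kc r * Real.sqrt (Real.pi ^ 3)) /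
        Real.sqrt (1 + t) ^ (r + 1) * (D * ((1 + t) / (1 + t + n ^ 2)) ^ M) := by gcongr
    _ = _ := by ring

end bounds

/-! ### the local limit -/

/-- the limit of the integrand -/
def Gc (r : ℕ) (t x φ : ℝ) : ℂ :=
  (Complex.I * φ) ^ r * Complex.exp (Complex.I * (x * φ)) * (Real.exp (-(t * φ ^ 2)) : ℝ)

/-- the derivatives of the heat kernel on the line -/
def gd (r : ℕ) (t x : ℝ) : ℝ := 1 / (2 * Real.pi) * (∫ φ, Gc r t x φ).re

theorem Gc_cont (r : ℕ) (t x : ℝ) : Continuous (Gc r t x) := by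
  unfold Gc
  fun_prop

theorem Gc_norm (r : ℕ) (t x φ : ℝ) : ‖Gc r t x φ‖ = |φ| ^ r * Real.exp (-(t * φ ^ 2)) := by
  unfold Gc
  have h1 : ‖Complex.exp (Complex.I * (x * φ))‖ = 1 := by
    have : Complex.I * ((x : ℂ) * φ) = ((x * φ : ℝ) : ℂ) * Complex.I := by
      push_cast
      ring
    rw [this, Complex.norm_exp_ofReal_mul_I]
  rw [norm_mul, norm_mul, h1, norm_pow, norm_mul, Complex.norm_I, Complex.norm_real,
    Complex.norm_real, Real.norm_eq_abs, Real.norm_eq_abs, Real.abs_exp, one_mul, mul_one]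

theorem Gc_int (r : ℕ) (t x : ℝ) (ht : 0 < t) : Integrable (Gc r t x) := by
  refine (Pool.Agent.W446.SCH.int_abs_pow t ht r).mono' (Gc_cont r t x).aestronglyMeasurable
    (Filter.Eventually.of_forall fun φ => ?_)
  rw [Gc_norm]

/-- the integrand after the substitution -/
def FF (r : ℕ) (t : ℝ) (z : ℤ) (q : ℕ) (φ : ℝ) : ℂ :=
  (q : ℂ) ^ r * F r ((q : ℝ) ^ 2 * t) z ((φ / q : ℝ) : ℂ)

theorem FF_cont (r : ℕ) (t : ℝ) (z : ℤ) (q : ℕ) : Continuous (FF r t z q) := by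
  unfold FF F
  fun_prop

theorem subst (r : ℕ) (t : ℝ) (z : ℤ) (q : ℕ) (hq : 0 < q) :
    (q : ℝ) ^ (r + 1) * fd r ((q : ℝ) ^ 2 * t) z =
      1 / (2 * Real.pi) *
        (∫ φ, (Set.Ioc (-(Real.pi * q)) (Real.pi * q)).indicator (FF r t z q) φ).re := by
  have hq' : (0 : ℝ) < q := by exact_mod_cast hq
  rw [fd_eq r, integral_indicator measurableSet_Ioc,
    ← intervalIntegral.integral_of_le (by nlinarith [Real.pi_pos])]
  have h1 := intervalIntegral.integral_comp_div (a := -(Real.pi * q)) (b := Real.pi * q)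
    (fun θ : ℝ => (q : ℂ) ^ r * F r ((q : ℝ) ^ 2 * t) z (θ : ℂ)) (ne_of_gt hq')
  have e1 : -(Real.pi * q) / (q : ℝ) = -Real.pi := by field_simp
  have e2 : Real.pi * q / (q : ℝ) = Real.pi := by field_simp
  rw [e1, e2] at h1
  have h2 : ∫ φ in (-(Real.pi * q))..(Real.pi * q), FF r t z q φ =
      ∫ φ in (-(Real.pi * q))..(Real.pi * q), (q : ℂ) ^ r * F r ((q : ℝ) ^ 2 * t) z
        ((φ / q : ℝ) : ℂ) := rfl
  rw [h2, h1, intervalIntegral.integral_const_mul]
  have h3 : ((q : ℝ) • ((q : ℂ) ^ r * ∫ x in (-Real.pi)..Real.pi,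
      F r ((q : ℝ) ^ 2 * t) z (x : ℂ))).re =
      (q : ℝ) ^ (r + 1) * (∫ x in (-Real.pi)..Real.pi, F r ((q : ℝ) ^ 2 * t) z (x : ℂ)).re := by
    rw [Complex.smul_re, smul_eq_mul]
    have : (q : ℂ) ^ r = (((q : ℝ) ^ r : ℝ) : ℂ) := by push_cast; rfl
    rw [this, Complex.re_ofReal_mul]
    ring
  rw [h3]
  ring

theorem FF_bound (r : ℕ) (t : ℝ) (ht : 0 < t) (z : ℤ) (q : ℕ) (hq : 0 < q) (φ : ℝ)
    (hφ : |φ| ≤ Real.pi * q) :
    ‖FF r t z q φ‖ ≤ |φ| ^ r * Real.exp (-(4 * t / Real.pi ^ 2 * φ ^ 2)) := by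
  have hq' : (0 : ℝ) < q := by exact_mod_cast hq
  unfold FF F
  have h0 : ‖Complex.exp (Complex.I * ((z : ℂ) * ((φ / q : ℝ) : ℂ)))‖ = 1 := by
    have : Complex.I * ((z : ℂ) * ((φ / q : ℝ) : ℂ)) = ((z * (φ / q) : ℝ) : ℂ) * Complex.I := by
      push_cast
      ring
    rw [this, Complex.norm_exp_ofReal_mul_I]
  have h1 : ‖Complex.exp (Complex.I * ((φ / q : ℝ) : ℂ)) - 1‖ ≤ |φ| / q := by
    refine (Real.norm_exp_I_mul_ofReal_sub_one_le (x := φ / q)).trans ?_
    rw [Real.norm_eq_abs, abs_div, Nat.abs_cast]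
  have h2 : Complex.exp (-((((q : ℝ) ^ 2 * t : ℝ) : ℂ) * (2 - 2 * Complex.cos ((φ / q : ℝ) : ℂ)))) =
      ((Real.exp (-((q : ℝ) ^ 2 * t * (2 - 2 * Real.cos (φ / q)))) : ℝ) : ℂ) := by
    push_cast
    rfl
  have h3 : ‖((Real.exp (-((q : ℝ) ^ 2 * t * (2 - 2 * Real.cos (φ / q)))) : ℝ) : ℂ)‖ ≤
      Real.exp (-(4 * t / Real.pi ^ 2 * φ ^ 2)) := by
    rw [Complex.norm_real, Real.norm_eq_abs, Real.abs_exp]
    apply Real.exp_le_exp.mpr
    apply neg_le_neg
    have h1 : |φ / q| ≤ Real.pi := by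
      rw [abs_div, Nat.abs_cast, div_le_iff₀ hq']
      exact hφ
    have h2 := Real.cos_le_one_sub_mul_cos_sq h1
    have h3 : 4 / Real.pi ^ 2 * (φ / q) ^ 2 ≤ 2 - 2 * Real.cos (φ / q) := by
      have e : 4 / Real.pi ^ 2 * (φ / q) ^ 2 = 2 * (2 / Real.pi ^ 2 * (φ / q) ^ 2) := by ring
      rw [e]
      linarith
    calc 4 * t / Real.pi ^ 2 * φ ^ 2 = (q : ℝ) ^ 2 * t * (4 / Real.pi ^ 2 * (φ / q) ^ 2) := by
          field_simp
      _ ≤ (q : ℝ) ^ 2 * t * (2 - 2 * Real.cos (φ / q)) :=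
          mul_le_mul_of_nonneg_left h3 (by positivity)
  rw [h2, norm_mul, norm_mul, norm_mul, h0, one_mul, norm_pow, norm_pow]
  have h4 : ‖(q : ℂ)‖ = q := by simp
  rw [h4, ← mul_assoc, ← mul_pow]
  have h5 : (q : ℝ) * ‖Complex.exp (Complex.I * ((φ / q : ℝ) : ℂ)) - 1‖ ≤ |φ| := by
    calc (q : ℝ) * ‖Complex.exp (Complex.I * ((φ / q : ℝ) : ℂ)) - 1‖ ≤ q * (|φ| / q) := by gcongr
      _ = |φ| := by field_simp
  gcongr

theorem exp_lim (φ : ℝ) : Tendsto (fun q : ℕ => (q : ℂ) *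
    (Complex.exp (Complex.I * ((φ / q : ℝ) : ℂ)) - 1)) atTop (𝓝 (Complex.I * φ)) := by
  have h1 : HasDerivAt (fun s : ℝ => Complex.exp (Complex.I * ((φ * s : ℝ) : ℂ)))
      (Complex.I * φ) 0 := by
    have h2 : HasDerivAt (fun s : ℝ => Complex.I * ((φ * s : ℝ) : ℂ)) (Complex.I * φ) 0 := by
      have h3 : HasDerivAt (fun s : ℝ => φ * s) φ 0 := by
        simpa using (hasDerivAt_id (0 : ℝ)).const_mul φ
      exact (h3.ofReal_comp).const_mul Complex.I
    have h4 := h2.cexp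
    simpa using h4
  have h5 := hasDerivAt_iff_tendsto_slope_zero.1 h1
  have h6 : Tendsto (fun q : ℕ => ((q : ℝ))⁻¹) atTop (𝓝[≠] 0) := by
    refine tendsto_nhdsWithin_iff.2 ⟨tendsto_inv_atTop_nhds_zero_nat, ?_⟩
    filter_upwards [eventually_gt_atTop 0] with q hq
    have hq' : (0 : ℝ) < q := by exact_mod_cast hq
    exact inv_ne_zero hq'.ne'
  refine (h5.comp h6).congr fun q => ?_
  simp only [Function.comp, inv_inv, zero_add, mul_zero, Complex.ofReal_zero, Complex.exp_zero]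
  rw [div_eq_mul_inv, Complex.real_smul]
  simp

theorem FF_lim (r : ℕ) (t x : ℝ) (z : ℕ → ℤ)
    (hz : Tendsto (fun q : ℕ => (z q : ℝ) / q) atTop (𝓝 x)) (φ : ℝ) :
    Tendsto (fun q : ℕ => FF r t (z q) q φ) atTop (𝓝 (Gc r t x φ)) := by
  have hs := Pool.Agent.W446.SCH.sin_lim (φ / 2)
  have hs2 : Tendsto (fun q : ℕ => (2 * ((q : ℝ) * Real.sin (φ / 2 / q))) ^ 2) atTop (𝓝 (φ ^ 2)) := by
    have := (hs.const_mul 2).pow 2
    have e : 2 * (φ / 2) = φ := by ring
    rwa [e] at this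
  have hsq : ∀ q : ℕ, (2 * ((q : ℝ) * Real.sin (φ / 2 / q))) ^ 2 =
      (q : ℝ) ^ 2 * (2 - 2 * Real.cos (φ / q)) := by
    intro q
    have e1 : φ / (q : ℝ) = 2 * (φ / 2 / q) := by ring
    have e2 := Real.cos_two_mul (φ / 2 / (q : ℝ))
    have e3 := Real.sin_sq_add_cos_sq (φ / 2 / (q : ℝ))
    rw [e1, e2]
    have e4 : Real.cos (φ / 2 / (q : ℝ)) ^ 2 = 1 - Real.sin (φ / 2 / (q : ℝ)) ^ 2 := by linarith
    rw [e4]
    ring
  have hexp : Tendsto (fun q : ℕ => Real.exp (-((q : ℝ) ^ 2 * t * (2 - 2 * Real.cos (φ / q)))))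
      atTop (𝓝 (Real.exp (-(t * φ ^ 2)))) := by
    have h1 := (Real.continuous_exp.tendsto _).comp ((hs2.const_mul t).neg)
    refine h1.congr fun q => ?_
    simp only [Function.comp]
    rw [hsq q]
    congr 1
    ring
  have hexp' : Tendsto (fun q : ℕ =>
      ((Real.exp (-((q : ℝ) ^ 2 * t * (2 - 2 * Real.cos (φ / q)))) : ℝ) : ℂ))
      atTop (𝓝 ((Real.exp (-(t * φ ^ 2)) : ℝ) : ℂ)) :=
    (Complex.continuous_ofReal.tendsto _).comp hexp
  have harg : Tendsto (fun q : ℕ => (z q : ℝ) * (φ / q)) atTop (𝓝 (x * φ)) := by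
    refine (hz.mul_const φ).congr fun q => ?_
    ring
  have hcexp : Tendsto (fun q : ℕ => Complex.exp (Complex.I * (((z q : ℝ) * (φ / q) : ℝ) : ℂ))) atTop
      (𝓝 (Complex.exp (Complex.I * ((x * φ : ℝ) : ℂ)))) := by
    have hc : Continuous fun s : ℝ => Complex.exp (Complex.I * (s : ℂ)) := by fun_prop
    exact (hc.tendsto _).comp harg
  have hpow := (exp_lim φ).pow r
  have hall := (hpow.mul hcexp).mul hexp'
  have e0 : (Complex.I * (φ : ℂ)) ^ r * Complex.exp (Complex.I * ((x * φ : ℝ) : ℂ)) *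
      ((Real.exp (-(t * φ ^ 2)) : ℝ) : ℂ) = Gc r t x φ := by
    unfold Gc
    push_cast
    rfl
  rw [e0] at hall
  refine hall.congr fun q => ?_
  unfold FF F
  rw [mul_pow]
  push_cast
  ring

/-- The local limit theorem for the differences of the heat kernel. -/
theorem t_HL (r : ℕ) (t x : ℝ) (ht : 0 < t) (z : ℕ → ℤ)
    (hz : Tendsto (fun q : ℕ => (z q : ℝ) / q) atTop (𝓝 x)) :
    Tendsto (fun q : ℕ => (q : ℝ) ^ (r + 1) * fd r ((q : ℝ) ^ 2 * t) (z q)) atTop
      (𝓝 (gd r t x)) := by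
  have hmain : Tendsto (fun q : ℕ =>
      ∫ φ, (Set.Ioc (-(Real.pi * q)) (Real.pi * q)).indicator (FF r t (z q) q) φ) atTop
      (𝓝 (∫ φ, Gc r t x φ)) := by
    apply tendsto_integral_filter_of_dominated_convergence
      (fun φ => |φ| ^ r * Real.exp (-(4 * t / Real.pi ^ 2 * φ ^ 2)))
    · exact Filter.Eventually.of_forall fun q =>
        ((FF_cont r t (z q) q).aestronglyMeasurable.indicator measurableSet_Ioc)
    · filter_upwards [eventually_gt_atTop 0] with q hq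
      refine Filter.Eventually.of_forall fun φ => ?_
      by_cases h : φ ∈ Set.Ioc (-(Real.pi * q)) (Real.pi * q)
      · rw [Set.indicator_of_mem h]
        exact FF_bound r t ht (z q) q hq φ (abs_le.mpr ⟨h.1.le, h.2⟩)
      · rw [Set.indicator_of_notMem h, norm_zero]
        positivity
    · exact Pool.Agent.W446.SCH.int_abs_pow _ (by positivity) r
    · refine Filter.Eventually.of_forall fun φ => ?_
      refine (FF_lim r t x z hz φ).congr' ?_
      have h1 : Tendsto (fun q : ℕ => Real.pi * (q : ℝ)) atTop atTop :=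
        tendsto_natCast_atTop_atTop.const_mul_atTop Real.pi_pos
      filter_upwards [h1.eventually_gt_atTop |φ|] with q hq
      rw [Set.indicator_of_mem]
      have := abs_lt.mp hq
      exact ⟨this.1, this.2.le⟩
  have hmain2 := ((Complex.continuous_re.tendsto _).comp hmain).const_mul (1 / (2 * Real.pi))
  refine hmain2.congr' ?_
  filter_upwards [eventually_gt_atTop 0] with q hq
  exact (subst r t (z q) q hq).symm

/-- the first derivatives -/
theorem gd_rd (r : ℕ) (hr : r < 3) (t x : ℝ) (ht : 0 < t) : gd r t x = rd r t x := by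
  rw [← Pool.Agent.W446.SCH.GG_int r hr t x ht]
  unfold gd
  have h := integral_re (Gc_int r t x ht)
  have h2 : (∫ φ, Gc r t x φ).re = ∫ φ, (Gc r t x φ).re := h.symm
  rw [h2]
  congr 1
  congr 1
  ext φ
  have hE : Complex.exp (Complex.I * ((x : ℂ) * φ)) =
      (Real.cos (x * φ) : ℝ) + (Real.sin (x * φ) : ℝ) * Complex.I := by
    have : Complex.I * ((x : ℂ) * φ) = ((x * φ : ℝ) : ℂ) * Complex.I := by
      push_cast
      ring
    rw [this, Complex.exp_mul_I, Complex.ofReal_cos, Complex.ofReal_sin]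
  unfold Gc Pool.Agent.W446.SCH.GG
  rw [hE, Complex.re_mul_ofReal]
  congr 1
  generalize Real.cos (x * φ) = c
  generalize Real.sin (x * φ) = s
  interval_cases r
  · simp
  · simp
  · simp [pow_two]

/-- the derivative -/
theorem gd_deriv (r : ℕ) (t x : ℝ) (ht : 0 < t) :
    HasDerivAt (fun y => gd r t y) (gd (r + 1) t x) x := by
  have h := hasDerivAt_integral_of_dominated_loc_of_deriv_le (𝕜 := ℝ) (μ := volume)
    (F := fun y φ => Gc r t y φ) (F' := fun y φ => Gc (r + 1) t y φ) (x₀ := x)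
    (bound := fun φ => |φ| ^ (r + 1) * Real.exp (-(t * φ ^ 2))) (s := Set.univ) Filter.univ_mem
    (Filter.Eventually.of_forall fun y => (Gc_cont r t y).aestronglyMeasurable)
    (Gc_int r t x ht) (Gc_cont (r + 1) t x).aestronglyMeasurable
    (Filter.Eventually.of_forall fun φ y _ => by rw [Gc_norm])
    (Pool.Agent.W446.SCH.int_abs_pow t ht (r + 1))
    (Filter.Eventually.of_forall fun φ y _ => by
      unfold Gc
      have h1 : HasDerivAt (fun y : ℝ => Complex.I * ((y : ℂ) * φ)) (Complex.I * φ) y := by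
        have h3 : HasDerivAt (fun y : ℝ => (y : ℂ)) 1 y := Complex.ofRealCLM.hasDerivAt
        have h4 := (h3.mul_const (φ : ℂ)).const_mul Complex.I
        rwa [one_mul] at h4
      have h2 := ((h1.cexp).const_mul ((Complex.I * (φ : ℂ)) ^ r)).mul_const
        ((Real.exp (-(t * φ ^ 2)) : ℝ) : ℂ)
      have e : (Complex.I * (φ : ℂ)) ^ (r + 1) * Complex.exp (Complex.I * ((y : ℂ) * φ)) *
          ((Real.exp (-(t * φ ^ 2)) : ℝ) : ℂ) = (Complex.I * (φ : ℂ)) ^ r *
            (Complex.exp (Complex.I * ((y : ℂ) * φ)) * (Complex.I * φ)) *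
            ((Real.exp (-(t * φ ^ 2)) : ℝ) : ℂ) := by
        rw [pow_succ]
        ring
      rw [e]
      exact h2)
  have h2 := h.2
  have h3 : HasDerivAt (fun y : ℝ => (∫ φ, Gc r t y φ).re) ((∫ φ, Gc (r + 1) t x φ).re) x := by
    have := (Complex.reCLM.hasFDerivAt.comp_hasDerivAt x h2)
    exact this
  exact h3.const_mul _

/-! ### bounds for the derivatives of the heat kernel on the line -/

theorem fl (x : ℝ) : Tendsto (fun q : ℕ => ((⌊(q : ℝ) * x⌋ : ℤ) : ℝ) / q) atTop (𝓝 x) := by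
  rw [tendsto_iff_norm_sub_tendsto_zero]
  refine squeeze_zero' (Filter.Eventually.of_forall fun q => norm_nonneg _) ?_
    (tendsto_const_div_atTop_nhds_zero_nat (1 : ℝ))
  filter_upwards [eventually_gt_atTop 0] with q hq
  have hq' : (0 : ℝ) < q := by exact_mod_cast hq
  have h1 := Int.floor_le ((q : ℝ) * x)
  have h2 := Int.lt_floor_add_one ((q : ℝ) * x)
  have e : ((⌊(q : ℝ) * x⌋ : ℤ) : ℝ) / q - x = (((⌊(q : ℝ) * x⌋ : ℤ) : ℝ) - q * x) / q := by
    field_simp
  rw [e, Real.norm_eq_abs, abs_div, Nat.abs_cast]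
  gcongr
  rw [abs_le]
  constructor <;> linarith

theorem gd_bound (M r : ℕ) (C : ℝ) (h : ∀ t : ℝ, 0 ≤ t → ∀ n : ℤ,
    |fd r t n| ≤ C / Real.sqrt (1 + t) ^ (r + 1) * ((1 + t) / (1 + t + n ^ 2)) ^ M) (t x : ℝ)
    (ht : 0 < t) :
    |gd r t x| ≤ C / Real.sqrt t ^ (r + 1) * (t / (t + x ^ 2)) ^ M := by
  set z : ℕ → ℤ := fun q => ⌊(q : ℝ) * x⌋ with hz
  have hzt : Tendsto (fun q : ℕ => (z q : ℝ) / q) atTop (𝓝 x) := fl x
  have h1 := (t_HL r t x ht z hzt).abs
  have he : Tendsto (fun q : ℕ => 1 / (q : ℝ) ^ 2) atTop (𝓝 0) := by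
    have := (tendsto_const_div_atTop_nhds_zero_nat (1 : ℝ)).pow 2
    have e0 : (0 : ℝ) ^ 2 = 0 := by norm_num
    rw [e0] at this
    refine this.congr fun q => ?_
    rw [div_pow, one_pow]
  have he1 : Tendsto (fun q : ℕ => 1 / (q : ℝ) ^ 2 + t) atTop (𝓝 t) := by
    simpa using he.add_const t
  have hst : 0 < Real.sqrt t := Real.sqrt_pos.2 ht
  have h2 : Tendsto (fun q : ℕ => C / Real.sqrt (1 / (q : ℝ) ^ 2 + t) ^ (r + 1) *
      ((1 / (q : ℝ) ^ 2 + t) / (1 / (q : ℝ) ^ 2 + t + ((z q : ℝ) / q) ^ 2)) ^ M) atTop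
      (𝓝 (C / Real.sqrt t ^ (r + 1) * (t / (t + x ^ 2)) ^ M)) := by
    refine Tendsto.mul ?_ ?_
    · exact tendsto_const_nhds.div (((Real.continuous_sqrt.tendsto _).comp he1).pow (r + 1))
        (by positivity)
    · exact (he1.div (he1.add (hzt.pow 2)) (by positivity)).pow M
  refine le_of_tendsto_of_tendsto h1 h2 ?_
  filter_upwards [eventually_gt_atTop 0] with q hq
  have hq' : (0 : ℝ) < q := by exact_mod_cast hq
  have hb := h ((q : ℝ) ^ 2 * t) (by positivity) (z q)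
  have e1 : 1 + (q : ℝ) ^ 2 * t = (q : ℝ) ^ 2 * (1 / (q : ℝ) ^ 2 + t) := by field_simp
  have e2 : Real.sqrt (1 + (q : ℝ) ^ 2 * t) = q * Real.sqrt (1 / (q : ℝ) ^ 2 + t) := by
    rw [e1, Real.sqrt_mul (by positivity), Real.sqrt_sq hq'.le]
  have e3 : (1 + (q : ℝ) ^ 2 * t) / (1 + (q : ℝ) ^ 2 * t + (z q : ℝ) ^ 2) =
      (1 / (q : ℝ) ^ 2 + t) / (1 / (q : ℝ) ^ 2 + t + ((z q : ℝ) / q) ^ 2) := by
    have h0 : (0 : ℝ) < 1 / (q : ℝ) ^ 2 + t + ((z q : ℝ) / q) ^ 2 := by positivity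
    have h0' : (0 : ℝ) < 1 + (q : ℝ) ^ 2 * t + (z q : ℝ) ^ 2 := by positivity
    rw [div_eq_div_iff h0'.ne' h0.ne']
    field_simp
  rw [abs_mul, abs_of_pos (by positivity : (0 : ℝ) < (q : ℝ) ^ (r + 1))]
  have hs : 0 < Real.sqrt (1 / (q : ℝ) ^ 2 + t) := Real.sqrt_pos.2 (by positivity)
  calc (q : ℝ) ^ (r + 1) * |fd r ((q : ℝ) ^ 2 * t) (z q)|
      ≤ (q : ℝ) ^ (r + 1) * (C / Real.sqrt (1 + (q : ℝ) ^ 2 * t) ^ (r + 1) *
        ((1 + (q : ℝ) ^ 2 * t) / (1 + (q : ℝ) ^ 2 * t + (z q : ℝ) ^ 2)) ^ M) := by gcongr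
    _ = _ := by
      rw [e3, e2, mul_pow]
      field_simp

/-! ### measurability -/

theorem hk_cont (n : ℤ) : Continuous fun t : ℝ => hk t n := by
  unfold hk
  refine continuous_const.mul ?_
  apply intervalIntegral.continuous_parametric_intervalIntegral_of_continuous'
  fun_prop

theorem fd_cont (r : ℕ) (n : ℤ) : Continuous fun t : ℝ => fd r t n := by
  induction r generalizing n with
  | zero => exact hk_cont n
  | succ r ih => exact (ih (n + 1)).sub (ih n)

theorem gd_meas (r : ℕ) (x : ℝ) :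
    AEStronglyMeasurable (fun t : ℝ => gd r t x) (volume.restrict (Set.Ioi 0)) := by
  refine aestronglyMeasurable_of_tendsto_ae (u := atTop) (f := fun (q : ℕ) (t : ℝ) =>
    (q : ℝ) ^ (r + 1) * fd r ((q : ℝ) ^ 2 * t) ⌊(q : ℝ) * x⌋) (fun q => ?_) ?_
  · have : Continuous fun t : ℝ => (q : ℝ) ^ (r + 1) * fd r ((q : ℝ) ^ 2 * t) ⌊(q : ℝ) * x⌋ :=
      continuous_const.mul ((fd_cont r _).comp (continuous_const.mul continuous_id))
    exact this.aestronglyMeasurable
  · refine (ae_restrict_iff' measurableSet_Ioi).2 (Filter.Eventually.of_forall fun t ht => ?_)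
    exact t_HL r t x ht _ (fl x)

/-! ### products -/

theorem vpow {c τ v : ℝ} (hc : 0 < c) (hτ : 0 < τ) (hv0 : 0 ≤ v) (hv3 : v ^ 2 ≤ 1 / (τ + c ^ 2))
    {D : ℕ} (hD : 4 ≤ D) : v ^ D ≤ (1 / c) ^ (D - 4) * (1 + 1 / c ^ 4) * (1 + τ ^ 2)⁻¹ := by
  have hτc : 0 < τ + c ^ 2 := by positivity
  have hvc : v ≤ 1 / c := by
    have e1 : v ^ 2 ≤ (1 / c) ^ 2 := by
      refine hv3.trans ?_
      rw [div_pow, one_pow, div_le_div_iff₀ hτc (by positivity)]
      nlinarith
    exact le_of_sq_le_sq e1 (by positivity)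
  have h4 : v ^ 4 ≤ (1 + 1 / c ^ 4) * (1 + τ ^ 2)⁻¹ := by
    have e1 : v ^ 4 ≤ (1 / (τ + c ^ 2)) ^ 2 := by
      have : v ^ 4 = (v ^ 2) ^ 2 := by ring
      rw [this]
      exact pow_le_pow_left₀ (by positivity) hv3 2
    refine e1.trans ?_
    rw [div_pow, one_pow, ← div_eq_mul_inv, div_le_div_iff₀ (by positivity) (by positivity)]
    have e2 : τ ^ 2 + c ^ 4 ≤ (τ + c ^ 2) ^ 2 := by
      have : 0 < τ * c ^ 2 := by positivity
      nlinarith
    have e3 : (1 + 1 / c ^ 4) * (τ ^ 2 + c ^ 4) ≤ (1 + 1 / c ^ 4) * (τ + c ^ 2) ^ 2 :=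
      mul_le_mul_of_nonneg_left e2 (by positivity)
    refine le_trans ?_ e3
    have e4 : (1 + 1 / c ^ 4) * (τ ^ 2 + c ^ 4) = (1 + τ ^ 2) + (c ^ 4 + τ ^ 2 / c ^ 4) := by
      field_simp
      ring
    rw [e4, one_mul]
    have : 0 ≤ c ^ 4 + τ ^ 2 / c ^ 4 := by positivity
    linarith
  have h5 : v ^ D = v ^ (D - 4) * v ^ 4 := by
    rw [← pow_add]
    congr 1
    omega
  rw [h5, mul_assoc]
  exact mul_le_mul (pow_le_pow_left₀ hv0 hvc _) h4 (by positivity) (by positivity)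

theorem prodb {d : ℕ} (m : Fin d → ℕ) (C : ℕ → ℝ) (u : Fin d → ℝ) (A B : ℝ)
    (D : ℕ) (hD : ∑ i, (m i + 1) = D) (i0 : Fin d)
    (h : ∀ i, |u i| ≤ C (m i) * A ^ (m i + 1) * (if i = i0 then B ^ D else 1)) :
    |∏ i, u i| ≤ (∏ i, C (m i)) * (A * B) ^ D := by
  have hprod : |∏ i, u i| ≤ ∏ i : Fin d, (C (m i) * A ^ (m i + 1) *
      (if i = i0 then B ^ D else 1)) := by
    rw [Finset.abs_prod]
    exact Finset.prod_le_prod (fun i _ => abs_nonneg _) (fun i _ => h i)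
  refine hprod.trans (le_of_eq ?_)
  rw [Finset.prod_mul_distrib, Finset.prod_mul_distrib, Finset.prod_pow_eq_pow_sum, hD,
    Finset.prod_ite_eq', if_pos (Finset.mem_univ _), mul_pow]
  ring

theorem sum_count {d : ℕ} (L : List (Fin d)) : ∑ i, L.count i = L.length := by
  induction L with
  | nil => simp
  | cons a L ih =>
    simp only [List.count_cons, List.length_cons, Finset.sum_add_distrib, ih]
    simp

theorem sum_count1 {d : ℕ} (L : List (Fin d)) : ∑ i, (L.count i + 1) = d + L.length := by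
  rw [Finset.sum_add_distrib, sum_count]
  simp
  omega

theorem prod_atZ {d : ℕ} (i : Fin d) (f : Fin d → ℤ → ℝ) (x : Fin d → ℤ) (s : ℤ) :
    ∏ k, f k ((x + Pi.single i s : Fin d → ℤ) k) =
      f i (x i + s) * ∏ k ∈ Finset.univ.erase i, f k (x k) := by
  rw [← Finset.mul_prod_erase _ _ (Finset.mem_univ i)]
  have e3 : (x + Pi.single i s : Fin d → ℤ) i = x i + s := by simp
  rw [e3]
  congr 1
  refine Finset.prod_congr rfl fun k hk => ?_
  have hki : k ≠ i := (Finset.mem_erase.1 hk).1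
  simp [hki]

/-- the differences of the heat kernel on the lattice -/
theorem prod_fd {d : ℕ} (i : Fin d) (L : List (Fin d)) (t : ℝ) (z : Fin d → ℤ) :
    ∏ k, fd ((i :: L).count k) t (z k) =
      (∏ k, fd (L.count k) t ((z + Pi.single i 1 : Fin d → ℤ) k)) - ∏ k, fd (L.count k) t (z k) := by
  have e4 : ∏ k, fd ((i :: L).count k) t (z k) = fd ((i :: L).count i) t (z i) *
      ∏ k ∈ Finset.univ.erase i, fd ((i :: L).count k) t (z k) :=
    (Finset.mul_prod_erase _ _ (Finset.mem_univ i)).symm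
  have e5 : ∏ k, fd (L.count k) t (z k) = fd (L.count i) t (z i) *
      ∏ k ∈ Finset.univ.erase i, fd (L.count k) t (z k) :=
    (Finset.mul_prod_erase _ _ (Finset.mem_univ i)).symm
  rw [prod_atZ i (fun k => fd (L.count k) t) z 1, e4, e5]
  have e1 : ∏ k ∈ Finset.univ.erase i, fd ((i :: L).count k) t (z k) =
      ∏ k ∈ Finset.univ.erase i, fd (L.count k) t (z k) := by
    refine Finset.prod_congr rfl fun k hk => ?_
    have hki : k ≠ i := (Finset.mem_erase.1 hk).1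
    rw [List.count_cons_of_ne (Ne.symm hki)]
  rw [e1, List.count_cons_self, fd]
  ring

/-- the differences of the Green function as integrals -/
theorem dF_int (hI : S_GI) {d : ℕ} (hd3 : 3 ≤ d) (L : List (Fin d)) (z : Fin d → ℤ) :
    IntegrableOn (fun t : ℝ => ∏ i, fd (L.count i) t (z i)) (Set.Ioi 0) ∧
      dF L (green d) z = ∫ t in Set.Ioi (0 : ℝ), ∏ i, fd (L.count i) t (z i) := by
  induction L generalizing z with
  | nil =>
    have h := hI d hd3 z
    simpa [fd, dF] using h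
  | cons i L ih =>
    have h1 := ih (z + Pi.single i 1)
    have h2 := ih z
    have hfun : (fun t : ℝ => ∏ k, fd ((i :: L).count k) t (z k)) = fun t : ℝ =>
        (∏ k, fd (L.count k) t ((z + Pi.single i 1 : Fin d → ℤ) k)) - ∏ k, fd (L.count k) t (z k) := by
      funext t
      exact prod_fd i L t z
    rw [hfun]
    refine ⟨h1.1.sub h2.1, ?_⟩
    change dF L (green d) (z + Pi.single i 1) - dF L (green d) z = _
    rw [h1.2, h2.2]
    exact (integral_sub h1.1 h2.1).symm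

theorem dF_app {d : ℕ} (J K : List (Fin d)) (g : (Fin d → ℤ) → ℝ) (z s : Fin d → ℤ) :
    dF J (fun y => dF K g (y - s)) z = dF (J ++ K) g (z - s) := by
  induction J generalizing z with
  | nil => rfl
  | cons i J ih =>
    simp only [dF, List.cons_append, ih]
    congr 2
    abel

theorem DD_eq {d : ℕ} (j l : Fin d) (g : (Fin d → ℤ) → ℝ) :
    DD j l g = fun y => dF [j, l] g (y - Pi.single l 1) := by
  funext z
  simp only [dF, DD]
  have e1 : z - Pi.single l 1 + Pi.single j 1 + Pi.single l 1 = z + Pi.single j 1 := by abel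
  have e2 : z - Pi.single l 1 + Pi.single j 1 = z + Pi.single j 1 - Pi.single l 1 := by abel
  have e3 : z - Pi.single l 1 + Pi.single l 1 = z := by abel
  rw [e1, e2, e3]
  ring

theorem dF_DD {d : ℕ} (J : List (Fin d)) (j l : Fin d) (g : (Fin d → ℤ) → ℝ) (z : Fin d → ℤ) :
    dF J (DD j l g) z = dF (J ++ [j, l]) g (z - Pi.single l 1) := by
  rw [DD_eq, dF_app]

/-- the scaled integrand -/
def Fq {d : ℕ} (m : Fin d → ℕ) (z : Fin d → ℤ) (q : ℕ) (τ : ℝ) : ℝ :=
  ∏ i, ((q : ℝ) ^ (m i + 1) * fd (m i) ((q : ℝ) ^ 2 * τ) (z i))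

theorem Fq_eq {d : ℕ} (L : List (Fin d)) (z : Fin d → ℤ) (q : ℕ) (τ : ℝ) :
    Fq (fun i => L.count i) z q τ = (q : ℝ) ^ (d + L.length) *
      ∏ i, fd (L.count i) ((q : ℝ) ^ 2 * τ) (z i) := by
  unfold Fq
  rw [Finset.prod_mul_distrib, Finset.prod_pow_eq_pow_sum, sum_count1]

theorem int_Fq (hI : S_GI) {d : ℕ} (hd3 : 3 ≤ d) (L : List (Fin d)) (n : ℕ)
    (hn : L.length = n + 2) (z : Fin d → ℤ) (q : ℕ)
    (hq : 1 ≤ q) : IntegrableOn (Fq (fun i => L.count i) z q) (Set.Ioi 0) ∧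
      (q : ℝ) ^ (d + n) * dF L (green d) z =
        ∫ τ in Set.Ioi (0 : ℝ), Fq (fun i => L.count i) z q τ := by
  have hq0 : (0 : ℝ) < (q : ℝ) := by exact_mod_cast hq
  have hq2 : (0 : ℝ) < (q : ℝ) ^ 2 := by positivity
  obtain ⟨h1, h2⟩ := dF_int hI hd3 L z
  have hfun : Fq (fun i => L.count i) z q = fun τ : ℝ => (q : ℝ) ^ (d + L.length) *
      (fun t : ℝ => ∏ i, fd (L.count i) t (z i)) ((q : ℝ) ^ 2 * τ) := by
    funext τ
    exact Fq_eq L z q τ
  have h3 : IntegrableOn (fun τ : ℝ => (fun t : ℝ => ∏ i, fd (L.count i) t (z i))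
      ((q : ℝ) ^ 2 * τ)) (Set.Ioi 0) := by
    refine (integrableOn_Ioi_comp_mul_left_iff
      (fun t : ℝ => ∏ i, fd (L.count i) t (z i)) 0 hq2).2 ?_
    rw [mul_zero]
    exact h1
  refine ⟨?_, ?_⟩
  · rw [hfun]
    exact h3.const_mul _
  · rw [hfun, integral_const_mul,
      integral_comp_mul_left_Ioi (fun t : ℝ => ∏ i, fd (L.count i) t (z i)) 0 hq2,
      mul_zero, ← h2, smul_eq_mul, hn, ← add_assoc, pow_add _ (d + n) 2]
    field_simp

/-! ### the integral of the product of the derivatives -/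

/-- the derivatives of the Green function -/
def GI {d : ℕ} (m : Fin d → ℕ) (x : Fin d → ℝ) : ℝ :=
  ∫ t in Set.Ioi (0 : ℝ), ∏ i, gd (m i) t (x i)

theorem pr_meas {d : ℕ} (m : Fin d → ℕ) (x : Fin d → ℝ) :
    AEStronglyMeasurable (fun t : ℝ => ∏ i, gd (m i) t (x i)) (volume.restrict (Set.Ioi 0)) :=
  Finset.aestronglyMeasurable_fun_prod _ fun i _ => gd_meas (m i) (x i)

/-- constants for the bounds -/
theorem consts (M : ℕ) : ∃ C : ℕ → ℝ, (∀ r, 0 < C r) ∧ ∀ r, ∀ t : ℝ, 0 ≤ t → ∀ n : ℤ,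
    |fd r t n| ≤ C r / Real.sqrt (1 + t) ^ (r + 1) * ((1 + t) / (1 + t + n ^ 2)) ^ M := by
  choose C hC h using fun r => t_HB M r
  exact ⟨C, hC, h⟩

theorem pr_bound {d : ℕ} (m : Fin d → ℕ) (D : ℕ) (hD : ∑ i, (m i + 1) = D) (hD4 : 4 ≤ D)
    (C : ℕ → ℝ) (hC : ∀ r, 0 < C r) (h : ∀ r, ∀ t : ℝ, 0 ≤ t → ∀ n : ℤ,
    |fd r t n| ≤ C r / Real.sqrt (1 + t) ^ (r + 1) * ((1 + t) / (1 + t + n ^ 2)) ^ D)
    {c : ℝ} (hc : 0 < c) (x : Fin d → ℝ) (i0 : Fin d) (hx : c ≤ |x i0|) {t : ℝ} (ht : 0 < t) :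
    |∏ i, gd (m i) t (x i)| ≤
      (∏ i, C (m i)) * ((1 / c) ^ (D - 4) * (1 + 1 / c ^ 4) * (1 + t ^ 2)⁻¹) := by
  have hst : 0 < Real.sqrt t := Real.sqrt_pos.2 ht
  have hst2 : Real.sqrt t ^ 2 = t := Real.sq_sqrt ht.le
  have h1 : |∏ i, gd (m i) t (x i)| ≤ (∏ i, C (m i)) *
      ((1 / Real.sqrt t) * (t / (t + c ^ 2))) ^ D := by
    refine prodb m C _ _ _ D hD i0 fun i => ?_
    have h2 := gd_bound D (m i) (C (m i)) (h (m i)) t (x i) ht
    refine h2.trans ?_
    have hCi := hC (m i)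
    have e1 : C (m i) / Real.sqrt t ^ (m i + 1) = C (m i) * (1 / Real.sqrt t) ^ (m i + 1) := by
      rw [one_div_pow, mul_one_div]
    rw [e1]
    apply mul_le_mul_of_nonneg_left _ (by positivity)
    split_ifs with hi
    · subst hi
      refine pow_le_pow_left₀ (by positivity) ?_ _
      refine div_le_div_of_nonneg_left ht.le (by positivity) ?_
      have e1 : c ^ 2 ≤ |x i| ^ 2 := pow_le_pow_left₀ hc.le hx 2
      rw [sq_abs] at e1
      linarith
    · refine pow_le_one₀ (by positivity) ?_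
      rw [div_le_one (by positivity)]
      have : 0 ≤ x i ^ 2 := by positivity
      linarith
  refine h1.trans ?_
  refine mul_le_mul_of_nonneg_left ?_ (Finset.prod_nonneg fun i _ => (hC _).le)
  refine vpow hc ht (by positivity) ?_ hD4
  have htc : 0 < t + c ^ 2 := by positivity
  rw [mul_pow, div_pow, div_pow, hst2, one_pow]
  rw [div_mul_div_comm, one_mul, div_le_div_iff₀ (by positivity) htc]
  have : t ^ 2 * (t + c ^ 2) ≤ t * (t + c ^ 2) * (t + c ^ 2) := by
    have e : t ^ 2 ≤ t * (t + c ^ 2) := by nlinarith [mul_pos ht (pow_pos hc 2)]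
    exact mul_le_mul_of_nonneg_right e htc.le
  calc t ^ 2 * (t + c ^ 2) ≤ t * (t + c ^ 2) * (t + c ^ 2) := this
    _ = 1 * (t * (t + c ^ 2) ^ 2) := by ring

theorem pr_int {d : ℕ} (m : Fin d → ℕ) (hD4 : 4 ≤ ∑ i, (m i + 1)) (x : Fin d → ℝ) (hx : x ≠ 0) :
    IntegrableOn (fun t : ℝ => ∏ i, gd (m i) t (x i)) (Set.Ioi 0) := by
  obtain ⟨C, hC, h⟩ := consts (∑ i, (m i + 1))
  obtain ⟨i0, hi0⟩ : ∃ i0, x i0 ≠ 0 := by
    by_contra h
    push Not at h
    exact hx (funext h)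
  have hc : 0 < |x i0| := abs_pos.2 hi0
  refine Integrable.mono' (g := fun t => (∏ i, C (m i)) * ((1 / |x i0|) ^ ((∑ i, (m i + 1)) - 4) *
    (1 + 1 / |x i0| ^ 4) * (1 + t ^ 2)⁻¹)) ?_ (pr_meas m x) ?_
  · exact ((integrable_inv_one_add_sq.const_mul _).const_mul _).integrableOn
  · refine (ae_restrict_iff' measurableSet_Ioi).2 (Filter.Eventually.of_forall fun t ht => ?_)
    rw [Real.norm_eq_abs]
    exact pr_bound m _ rfl hD4 C hC h hc x i0 le_rfl ht

theorem prod_at {d : ℕ} (i : Fin d) (f : Fin d → ℝ → ℝ) (x : Fin d → ℝ) (s : ℝ) :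
    ∏ k, f k ((x + Pi.single i s : Fin d → ℝ) k) = f i (x i + s) * ∏ k ∈ Finset.univ.erase i, f k (x k) := by
  rw [← Finset.mul_prod_erase _ _ (Finset.mem_univ i)]
  have e3 : (x + Pi.single i s : Fin d → ℝ) i = x i + s := by simp
  rw [e3]
  congr 1
  refine Finset.prod_congr rfl fun k hk => ?_
  have hki : k ≠ i := (Finset.mem_erase.1 hk).1
  simp [hki]

theorem pr_deriv {d : ℕ} (m : Fin d → ℕ) (i : Fin d) (x : Fin d → ℝ) (t s : ℝ) (ht : 0 < t) :
    HasDerivAt (fun s : ℝ => ∏ k, gd (m k) t ((x + Pi.single i s : Fin d → ℝ) k))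
      (∏ k, gd (m k + if i = k then 1 else 0) t ((x + Pi.single i s : Fin d → ℝ) k)) s := by
  have h1 : (fun s : ℝ => ∏ k, gd (m k) t ((x + Pi.single i s : Fin d → ℝ) k)) = fun s : ℝ =>
      gd (m i) t (x i + s) * ∏ k ∈ Finset.univ.erase i, gd (m k) t (x k) := by
    funext s
    exact prod_at i (fun k => gd (m k) t) x s
  have h2 : ∏ k, gd (m k + if i = k then 1 else 0) t ((x + Pi.single i s : Fin d → ℝ) k) =
      gd (m i + 1) t (x i + s) * ∏ k ∈ Finset.univ.erase i, gd (m k) t (x k) := by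
    rw [prod_at i (fun k => gd (m k + if i = k then 1 else 0) t) x s, if_pos rfl]
    congr 1
    refine Finset.prod_congr rfl fun k hk => ?_
    have hki : k ≠ i := (Finset.mem_erase.1 hk).1
    rw [if_neg (Ne.symm hki), add_zero]
  rw [h1, h2]
  refine HasDerivAt.mul_const ?_ _
  have h3 := gd_deriv (m i) t (x i + s) ht
  have h4 : HasDerivAt (fun s : ℝ => x i + s) 1 s := (hasDerivAt_id s).const_add (x i)
  have h5 := HasDerivAt.comp s h3 h4
  rw [mul_one] at h5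
  exact h5

theorem shift_abs {d : ℕ} (x : Fin d → ℝ) (i i0 : Fin d) (s : ℝ) (hs : |s| < |x i0| / 2) :
    |x i0| / 2 ≤ |(x + Pi.single i s : Fin d → ℝ) i0| := by
  by_cases hii : i0 = i
  · have e : (x + Pi.single i s : Fin d → ℝ) i0 = x i0 + s := by
      subst hii
      simp
    rw [e]
    have := abs_sub_abs_le_abs_sub (x i0) (-s)
    rw [abs_neg, sub_neg_eq_add] at this
    linarith
  · have e : (x + Pi.single i s : Fin d → ℝ) i0 = x i0 := by
      simp [hii]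
    rw [e]
    have := abs_nonneg (x i0)
    linarith

/-- the product along a line -/
def prs {d : ℕ} (m : Fin d → ℕ) (x : Fin d → ℝ) (i : Fin d) (s t : ℝ) : ℝ :=
  ∏ k, gd (m k) t ((x + Pi.single i s : Fin d → ℝ) k)

theorem prs_meas {d : ℕ} (m : Fin d → ℕ) (x : Fin d → ℝ) (i : Fin d) (s : ℝ) :
    AEStronglyMeasurable (prs m x i s) (volume.restrict (Set.Ioi (0 : ℝ))) := by
  have := pr_meas m (x + Pi.single i s : Fin d → ℝ)
  exact this

theorem prs_int {d : ℕ} (m : Fin d → ℕ) (hD4 : 4 ≤ ∑ i, (m i + 1)) (x : Fin d → ℝ) (hx : x ≠ 0)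
    (i : Fin d) : Integrable (prs m x i 0) (volume.restrict (Set.Ioi (0 : ℝ))) := by
  have hx0 : x + Pi.single i (0 : ℝ) = x := by simp
  have := pr_int m hD4 (x + Pi.single i (0 : ℝ)) (by rw [hx0]; exact hx)
  exact this

theorem prs_zero {d : ℕ} (m : Fin d → ℕ) (x : Fin d → ℝ) (i : Fin d) :
    ∫ t in Set.Ioi (0 : ℝ), prs m x i 0 t = GI m x := by
  have hx0 : x + Pi.single i (0 : ℝ) = x := by simp
  unfold GI prs
  rw [hx0]

theorem prs_GI {d : ℕ} (m : Fin d → ℕ) (x : Fin d → ℝ) (i : Fin d) :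
    (fun s : ℝ => GI m (x + Pi.single i s)) = fun s => ∫ t in Set.Ioi (0 : ℝ), prs m x i s t := by
  funext s
  rfl

theorem GI_deriv' {d : ℕ} (m m' : Fin d → ℕ) (hD4 : 4 ≤ ∑ i, (m i + 1)) (x : Fin d → ℝ)
    (hx : x ≠ 0) (i : Fin d) (hm' : m' = fun k => m k + if i = k then 1 else 0) :
    HasDerivAt (fun s : ℝ => GI m (x + Pi.single i s)) (GI m' x) 0 := by
  have hD4' : 4 ≤ ∑ k, (m' k + 1) := by
    refine hD4.trans (Finset.sum_le_sum fun k _ => ?_)
    rw [hm']
    simp only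
    omega
  obtain ⟨C, hC, h⟩ := consts (∑ i, (m' i + 1))
  obtain ⟨i0, hi0⟩ : ∃ i0, x i0 ≠ 0 := by
    by_contra h
    push Not at h
    exact hx (funext h)
  have hc : 0 < |x i0| / 2 := by
    have := abs_pos.2 hi0
    linarith
  have a4 : ∀ᵐ t ∂(volume.restrict (Set.Ioi (0 : ℝ))), ∀ s ∈ Metric.ball (0 : ℝ) (|x i0| / 2),
      ‖prs m' x i s t‖ ≤ (∏ i, C (m' i)) *
        ((1 / (|x i0| / 2)) ^ ((∑ i, (m' i + 1)) - 4) *
          (1 + 1 / (|x i0| / 2) ^ 4) * (1 + t ^ 2)⁻¹) := by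
    refine (ae_restrict_iff' measurableSet_Ioi).2
      (Filter.Eventually.of_forall fun t ht s hs => ?_)
    rw [Real.norm_eq_abs]
    have hs' : |s| < |x i0| / 2 := by simpa using hs
    have hsa := shift_abs x i i0 s hs'
    have hfin := pr_bound m' (∑ i, (m' i + 1)) rfl hD4' C hC h hc
      (x + Pi.single i s : Fin d → ℝ) i0 hsa ht
    exact hfin
  have a5 : Integrable (fun t : ℝ => (∏ i, C (m' i)) *
        ((1 / (|x i0| / 2)) ^ ((∑ i, (m' i + 1)) - 4) *
          (1 + 1 / (|x i0| / 2) ^ 4) * (1 + t ^ 2)⁻¹)) (volume.restrict (Set.Ioi (0 : ℝ))) :=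
    ((integrable_inv_one_add_sq.const_mul _).const_mul _).integrableOn
  have a6 : ∀ᵐ t ∂(volume.restrict (Set.Ioi (0 : ℝ))), ∀ s ∈ Metric.ball (0 : ℝ) (|x i0| / 2),
      HasDerivAt (fun s => prs m x i s t) (prs m' x i s t) s := by
    refine (ae_restrict_iff' measurableSet_Ioi).2
      (Filter.Eventually.of_forall fun t ht s hs => ?_)
    rw [hm']
    exact pr_deriv m i x t s ht
  have key := hasDerivAt_integral_of_dominated_loc_of_deriv_le (𝕜 := ℝ)
    (F := prs m x i) (F' := prs m' x i)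
    (Metric.ball_mem_nhds 0 hc) (Filter.Eventually.of_forall fun s => prs_meas m x i s)
    (prs_int m hD4 x hx i) (prs_meas m' x i 0) a4 a5 a6
  have h2 := key.2
  rw [prs_zero] at h2
  rw [prs_GI]
  exact h2

theorem GI_deriv {d : ℕ} (m : Fin d → ℕ) (hD4 : 4 ≤ ∑ i, (m i + 1)) (x : Fin d → ℝ) (hx : x ≠ 0)
    (i : Fin d) : HasDerivAt (fun s : ℝ => GI m (x + Pi.single i s))
      (GI (fun k => m k + if i = k then 1 else 0) x) 0 :=
  GI_deriv' m _ hD4 x hx i rfl

/-- the derivatives of the second derivatives of the Green function -/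
theorem pD_hess (hGG : S_GG) {d : ℕ} (hd3 : 3 ≤ d) (j l : Fin d) (J : List (Fin d))
    (x : Fin d → ℝ) (hx : x ≠ 0) :
    pD J (hess d j l) x = GI (fun k => (J ++ [j, l]).count k) x := by
  induction J generalizing x with
  | nil =>
    rw [pD, ← (hGG d j l x hd3 hx).2]
    unfold GI
    refine setIntegral_congr_fun measurableSet_Ioi fun t ht => ?_
    simp only
    refine Finset.prod_congr rfl fun k _ => ?_
    have e : List.count k ([] ++ [j, l]) = (if k = j then 1 else 0) + (if k = l then 1 else 0) := by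
      simp only [List.nil_append, List.count_cons, List.count_nil, beq_iff_eq]
      rw [zero_add, add_comm]
      congr 1 <;> simp only [eq_comm]
    rw [e]
    exact (gd_rd _ (by split_ifs <;> norm_num) t (x k) ht).symm
  | cons i J ih =>
    change deriv (fun t : ℝ => pD J (hess d j l) (x + Pi.single i t)) 0 = _
    have h1 : (fun t : ℝ => pD J (hess d j l) (x + Pi.single i t)) =ᶠ[𝓝 0]
        fun t : ℝ => GI (fun k => (J ++ [j, l]).count k) (x + Pi.single i t) := by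
      have hcont : Continuous fun t : ℝ => x + Pi.single i t := by
        refine continuous_pi fun k => ?_
        by_cases hki : k = i
        · subst hki
          simp only [Pi.add_apply, Pi.single_eq_same]
          fun_prop
        · simp only [Pi.add_apply, Pi.single_eq_of_ne hki]
          fun_prop
      have hne : ∀ᶠ t : ℝ in 𝓝 0, x + Pi.single i t ≠ 0 := by
        have h0 : x + Pi.single i (0 : ℝ) ≠ 0 := by simpa using hx
        exact hcont.continuousAt.eventually_ne h0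
      filter_upwards [hne] with t ht
      exact ih (x + Pi.single i t) ht
    rw [h1.deriv_eq]
    have hD4 : 4 ≤ ∑ k, ((J ++ [j, l]).count k + 1) := by
      rw [sum_count1]
      simp
      omega
    rw [(GI_deriv (fun k => (J ++ [j, l]).count k) hD4 x hx i).deriv]
    congr 1
    funext k
    rw [List.cons_append, List.count_cons]
    simp

theorem lat_bound {d : ℕ} (m : Fin d → ℕ) (D : ℕ) (hD : ∑ i, (m i + 1) = D) (hD4 : 4 ≤ D)
    (C : ℕ → ℝ) (hC : ∀ r, 0 < C r) (h : ∀ r, ∀ t : ℝ, 0 ≤ t → ∀ n : ℤ,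
    |fd r t n| ≤ C r / Real.sqrt (1 + t) ^ (r + 1) * ((1 + t) / (1 + t + n ^ 2)) ^ D)
    (z : Fin d → ℤ) (q : ℕ) (hq : 1 ≤ q) {c : ℝ} (hc : 0 < c) (i0 : Fin d)
    (hw : c * q ≤ |(z i0 : ℝ)|) {τ : ℝ} (hτ : 0 < τ) :
    |Fq m z q τ| ≤
      (∏ i, C (m i)) * ((1 / c) ^ (D - 4) * (1 + 1 / c ^ 4) * (1 + τ ^ 2)⁻¹) := by
  have hq0 : (0 : ℝ) < (q : ℝ) := by exact_mod_cast hq
  set y : ℝ := 1 + (q : ℝ) ^ 2 * τ with hy
  have hy0 : 0 < y := by positivity
  have hs0 : 0 < Real.sqrt y := Real.sqrt_pos.2 hy0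
  have hs2 : Real.sqrt y ^ 2 = y := Real.sq_sqrt hy0.le
  have hB0 : 0 < y + c ^ 2 * q ^ 2 := by positivity
  have h1 : |Fq m z q τ| ≤ (∏ i, C (m i)) *
      (((q : ℝ) / Real.sqrt y) * (y / (y + c ^ 2 * q ^ 2))) ^ D := by
    refine prodb m C _ _ _ D hD i0 fun i => ?_
    have h2 := h (m i) ((q : ℝ) ^ 2 * τ) (by positivity) (z i)
    rw [← hy] at h2
    have hCi := hC (m i)
    rw [abs_mul, abs_of_nonneg (by positivity : (0 : ℝ) ≤ (q : ℝ) ^ (m i + 1))]
    calc (q : ℝ) ^ (m i + 1) * |fd (m i) ((q : ℝ) ^ 2 * τ) (z i)|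
        ≤ (q : ℝ) ^ (m i + 1) * (C (m i) / Real.sqrt y ^ (m i + 1) *
          (y / (y + (z i : ℝ) ^ 2)) ^ D) :=
          mul_le_mul_of_nonneg_left h2 (by positivity)
      _ = C (m i) * ((q : ℝ) / Real.sqrt y) ^ (m i + 1) *
          (y / (y + (z i : ℝ) ^ 2)) ^ D := by
          rw [div_pow]
          ring
      _ ≤ _ := by
          apply mul_le_mul_of_nonneg_left _ (by positivity)
          split_ifs with hi
          · subst hi
            refine pow_le_pow_left₀ (by positivity) ?_ _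
            refine div_le_div_of_nonneg_left hy0.le (by positivity) ?_
            have e1 : (c * q) ^ 2 ≤ |(z i : ℝ)| ^ 2 :=
              pow_le_pow_left₀ (by positivity) hw 2
            rw [sq_abs, mul_pow] at e1
            linarith
          · refine pow_le_one₀ (by positivity) ?_
            rw [div_le_one (by positivity)]
            have : 0 ≤ (z i : ℝ) ^ 2 := by positivity
            linarith
  refine h1.trans ?_
  refine mul_le_mul_of_nonneg_left ?_ (Finset.prod_nonneg fun i _ => (hC _).le)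
  refine vpow hc hτ (by positivity) ?_ hD4
  have hτc : 0 < τ + c ^ 2 := by positivity
  have hv2 : ((q : ℝ) / Real.sqrt y * (y / (y + c ^ 2 * q ^ 2))) ^ 2 =
      q ^ 2 * y / (y + c ^ 2 * q ^ 2) ^ 2 := by
    rw [mul_pow, div_pow, div_pow, hs2]
    field_simp
  rw [hv2, div_le_div_iff₀ (by positivity) hτc]
  have e1 : (q : ℝ) ^ 2 * (τ + c ^ 2) ≤ y + c ^ 2 * q ^ 2 := by
    rw [hy]
    nlinarith
  have e2 : y ≤ y + c ^ 2 * q ^ 2 := by
    have : 0 ≤ c ^ 2 * (q : ℝ) ^ 2 := by positivity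
    linarith
  have e3 : ((q : ℝ) ^ 2 * (τ + c ^ 2)) * y ≤ (y + c ^ 2 * q ^ 2) * (y + c ^ 2 * q ^ 2) :=
    mul_le_mul e1 e2 hy0.le hB0.le
  nlinarith [e3]

/-- All differences of the Green function. -/
theorem main (hI : S_GI) {d : ℕ} (hd3 : 3 ≤ d) (L : List (Fin d)) (n : ℕ)
    (hn : L.length = n + 2) (x : Fin d → ℝ) (hx : x ≠ 0)
    (z : ℕ → Fin d → ℤ) (hz : ∀ i, Tendsto (fun q : ℕ => (z q i : ℝ) / q) atTop (𝓝 (x i))) :
    Tendsto (fun q : ℕ => (q : ℝ) ^ (d + n) * dF L (green d) (z q)) atTop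
      (𝓝 (GI (fun i => L.count i) x)) := by
  have hD4 : 4 ≤ ∑ i, (L.count i + 1) := by
    rw [sum_count1]
    omega
  obtain ⟨C, hC, h⟩ := consts (∑ i, (L.count i + 1))
  obtain ⟨i0, hi0⟩ : ∃ i0, x i0 ≠ 0 := by
    by_contra h
    push Not at h
    exact hx (funext h)
  have hc : 0 < |x i0| / 2 := by
    have := abs_pos.2 hi0
    linarith
  have hw : ∀ᶠ q : ℕ in atTop, 1 ≤ q ∧ |x i0| / 2 * q ≤ |(z q i0 : ℝ)| := by
    have h1 := (hz i0).abs
    have h2 : |x i0| / 2 < |x i0| := by linarith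
    filter_upwards [h1.eventually (lt_mem_nhds h2), eventually_ge_atTop 1] with q h3 h4
    refine ⟨h4, ?_⟩
    have hq0 : (0 : ℝ) < (q : ℝ) := by exact_mod_cast h4
    rw [abs_div, abs_of_pos hq0, lt_div_iff₀ hq0] at h3
    exact h3.le
  have hmain : Tendsto (fun q : ℕ => ∫ τ in Set.Ioi (0 : ℝ), Fq (fun i => L.count i) (z q) q τ)
      atTop (𝓝 (GI (fun i => L.count i) x)) := by
    refine tendsto_integral_filter_of_dominated_convergence
      (fun τ => (∏ i, C (L.count i)) * ((1 / (|x i0| / 2)) ^ ((∑ i, (L.count i + 1)) - 4) *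
      (1 + 1 / (|x i0| / 2) ^ 4) * (1 + τ ^ 2)⁻¹)) ?_ ?_ ?_ ?_
    · filter_upwards [eventually_ge_atTop 1] with q hq
      exact (int_Fq hI hd3 L n hn (z q) q hq).1.aestronglyMeasurable
    · filter_upwards [hw] with q hq
      refine (ae_restrict_iff' measurableSet_Ioi).2 (Filter.Eventually.of_forall fun τ hτ => ?_)
      rw [Real.norm_eq_abs]
      exact lat_bound (fun i => L.count i) _ rfl hD4 C hC h (z q) q hq.1 hc i0 hq.2 hτ
    · exact ((integrable_inv_one_add_sq.const_mul _).const_mul _).integrableOn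
    · refine (ae_restrict_iff' measurableSet_Ioi).2 (Filter.Eventually.of_forall fun τ hτ => ?_)
      unfold Fq
      refine tendsto_finsetProd _ fun i _ => ?_
      exact t_HL (L.count i) τ (x i) hτ (fun q => z q i) (hz i)
  refine hmain.congr' ?_
  filter_upwards [eventually_ge_atTop 1] with q hq
  exact (int_Fq hI hd3 L n hn (z q) q hq).2.symm

theorem KERJ (hI : S_GI) (hGG : S_GG) : S_KERJ := by
  intro d hd3 J j l x hx z hz
  rw [pD_hess hGG hd3 j l J x hx]
  have hz' : ∀ i, Tendsto (fun q : ℕ => (((z q - Pi.single l 1 : Fin d → ℤ) i : ℤ) : ℝ) / q) atTop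
      (𝓝 (x i)) := by
    intro i
    have h1 : Tendsto (fun q : ℕ => (((Pi.single l 1 : Fin d → ℤ) i : ℤ) : ℝ) / q)
        atTop (𝓝 0) := tendsto_const_div_atTop_nhds_zero_nat _
    have h2 := (hz i).sub h1
    rw [sub_zero] at h2
    refine h2.congr fun q => ?_
    rw [Pi.sub_apply]
    push_cast
    ring
  have h := main hI hd3 (J ++ [j, l]) J.length (by simp) x hx
    (fun q => z q - Pi.single l 1) hz'
  refine h.congr fun q => ?_
  rw [dF_DD]

/-- All differences of the lattice Green function at large distances. -/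
theorem t_KERJ : S_KERJ :=
  KERJ (Pool.Agent.W374.SCH.t_GI Pool.Agent.W557.SCH.t_FR
    (Pool.Agent.W252.SCH.t_SUP Pool.Agent.W557.SCH.t_FR)) Pool.Agent.W750.SCH.t_GG

end

end Pool.Agent.TH311.YM_KERJ
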