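import Pool.Agent.TH672.Sem
import Pool.Agent.TH894.J104

/-!
# Job 196: truth of the sentences on closed instances in the standard structure
-/

set_option autoImplicit false
namespace Pool.Agent.TH672
open Fm

namespace J196

/-! ### strings in the standard structure -/

lemma app_std (b : Bool) (x y : ℕ) (h : @App Sy Std b x y) : y = 2 * x + (if b then 2 else 1) := by
  have key : ∀ x y : ℕ, (if b then ∃ u w : ℕ, x + x = u ∧ w = u + 1 ∧ y = w + 1 else
      ∃ u : ℕ, x + x = u ∧ y = u + 1) → y = 2 * x + (if b then 2 else 1) := by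
    intro x y h
    cases b
    · simp only [Bool.false_eq_true, if_false] at h ⊢
      obtain ⟨u, h1, h2⟩ := h
      omega
    · simp only [if_true] at h ⊢
      obtain ⟨u, w, h1, h2, h3⟩ := h
      omega
  exact key x y h

lemma appL_std : ∀ (σ : List Bool) (a c : ℕ),
    @AppL Sy Std σ a c → c = σ.foldl (fun n b => 2 * n + if b then 2 else 1) a
  | [], a, c, h => by
    have h' : a = c := h
    exact h'.symm
  | b :: σ, a, c, h => by
    have key : ∀ t : ℕ, @App Sy Std b a t → @AppL Sy Std σ t c →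
        c = (b :: σ).foldl (fun n b => 2 * n + if b then 2 else 1) a := by
      intro t h1 h2
      have h1' := app_std b a t h1
      have h2' := appL_std σ t c h2
      rw [List.foldl_cons, h2', h1']
    obtain ⟨t, h1, h2⟩ := h
    exact key t h1 h2

lemma strV_std (σ : List Bool) (e : ℕ) (h : @StrV Sy Std σ e) : e = num σ := by
  have key : ∀ z : ℕ, z = 0 → @AppL Sy Std σ z e → e = num σ := by
    intro z hz h2
    subst hz
    exact appL_std σ 0 e h2
  obtain ⟨z, hz, h2⟩ := h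
  exact key z hz h2

/-! ### unique readability -/

lemma varStr_inj {x x' : ℕ} {u u' : List Bool} (h : varStr x ++ u = varStr x' ++ u') :
    x = x' ∧ u = u' := by
  induction x generalizing x' with
  | zero =>
    cases x' with
    | zero => simpa [varStr] using h
    | succ x' => simp [varStr, List.replicate_succ] at h
  | succ x ih =>
    cases x' with
    | zero => simp [varStr, List.replicate_succ] at h
    | succ x' =>
      have h2 : varStr x ++ u = varStr x' ++ u' := by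
        simpa [varStr, List.replicate_succ] using h
      obtain ⟨e1, e2⟩ := ih h2
      exact ⟨by rw [e1], e2⟩

lemma str_inj : ∀ {φ ψ : Form} {u u' : List Bool}, φ.str ++ u = ψ.str ++ u' → φ = ψ ∧ u = u' := by
  intro φ
  induction φ with
  | bot =>
    intro ψ u u' h
    cases ψ <;> simp_all [Form.str]
  | eq x y =>
    intro ψ u u' h
    cases ψ <;> simp only [Form.str, List.cons_append, List.nil_append, List.append_assoc, List.cons.injEq,
      reduceCtorEq, false_and, and_false, true_and] at h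
    obtain ⟨e1, h1⟩ := varStr_inj h
    obtain ⟨e2, h2⟩ := varStr_inj h1
    subst e1 e2
    exact ⟨rfl, h2⟩
  | zero x =>
    intro ψ u u' h
    cases ψ <;> simp only [Form.str, List.cons_append, List.nil_append, List.append_assoc, List.cons.injEq,
      reduceCtorEq, false_and, and_false, true_and] at h
    obtain ⟨e1, h1⟩ := varStr_inj h
    subst e1
    exact ⟨rfl, h1⟩
  | succ x y =>
    intro ψ u u' h
    cases ψ <;> simp only [Form.str, List.cons_append, List.nil_append, List.append_assoc, List.cons.injEq,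
      reduceCtorEq, false_and, and_false, true_and] at h
    obtain ⟨e1, h1⟩ := varStr_inj h
    obtain ⟨e2, h2⟩ := varStr_inj h1
    subst e1 e2
    exact ⟨rfl, h2⟩
  | add x y z =>
    intro ψ u u' h
    cases ψ <;> simp only [Form.str, List.cons_append, List.nil_append, List.append_assoc, List.cons.injEq,
      reduceCtorEq, false_and, and_false, true_and] at h
    obtain ⟨e1, h1⟩ := varStr_inj h
    obtain ⟨e2, h2⟩ := varStr_inj h1
    obtain ⟨e3, h3⟩ := varStr_inj h2
    subst e1 e2 e3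
    exact ⟨rfl, h3⟩
  | mul x y z =>
    intro ψ u u' h
    cases ψ <;> simp only [Form.str, List.cons_append, List.nil_append, List.append_assoc, List.cons.injEq,
      reduceCtorEq, false_and, and_false, true_and] at h
    obtain ⟨e1, h1⟩ := varStr_inj h
    obtain ⟨e2, h2⟩ := varStr_inj h1
    obtain ⟨e3, h3⟩ := varStr_inj h2
    subst e1 e2 e3
    exact ⟨rfl, h3⟩
  | imp φ1 φ2 ih1 ih2 =>
    intro ψ u u' h
    cases ψ <;> simp only [Form.str, List.cons_append, List.nil_append, List.append_assoc, List.cons.injEq,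
      reduceCtorEq, false_and, and_false, true_and] at h
    obtain ⟨e1, h1⟩ := ih1 h
    obtain ⟨e2, h2⟩ := ih2 h1
    subst e1 e2
    exact ⟨rfl, h2⟩
  | all x φ1 ih1 =>
    intro ψ u u' h
    cases ψ <;> simp only [Form.str, List.cons_append, List.nil_append, List.append_assoc, List.cons.injEq,
      reduceCtorEq, false_and, and_false, true_and] at h
    obtain ⟨e1, h1⟩ := varStr_inj h
    obtain ⟨e2, h2⟩ := ih1 h1
    subst e1 e2
    exact ⟨rfl, h2⟩

lemma code_inj {φ ψ : Form} (h : code [φ] = code [ψ]) : φ = ψ := by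
  have h1 : num φ.str = num ψ.str := by
    simpa [code, strs] using h
  have h2 : φ.str = ψ.str := R104.num_inj h1
  have h3 : φ.str ++ [] = ψ.str ++ [] := by rw [h2]
  exact (str_inj h3).1

/-! ### codes of closed instances -/

lemma slot_inj {a b : Slot} (h : a.code = b.code) : a = b := by
  cases a <;> cases b <;> simp only [Slot.code, Nat.pair_eq_pair] at h
  · rw [h.2]
  · exact absurd h.1 (by norm_num)
  · exact absurd h.1 (by norm_num)
  · rw [h.2]

lemma db_inj : ∀ {f g : DB}, f.code = g.code → f = g := by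
  intro f
  induction f with
  | atom k a b c =>
    intro g h
    cases g <;> simp only [DB.code, Nat.pair_eq_pair] at h
    · obtain ⟨_, h1, h2, h3, h4⟩ := h
      rw [h1, slot_inj h2, slot_inj h3, slot_inj h4]
    · exact absurd h.1 (by norm_num)
    · exact absurd h.1 (by norm_num)
  | imp f1 f2 ih1 ih2 =>
    intro g h
    cases g <;> simp only [DB.code, Nat.pair_eq_pair] at h
    · exact absurd h.1 (by norm_num)
    · obtain ⟨_, h1, h2⟩ := h
      rw [ih1 h1, ih2 h2]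
    · exact absurd h.1 (by norm_num)
  | all f1 ih1 =>
    intro g h
    cases g <;> simp only [DB.code, Nat.pair_eq_pair] at h
    · exact absurd h.1 (by norm_num)
    · exact absurd h.1 (by norm_num)
    · rw [ih1 h.2]

lemma slot_put (s : ℕ → ℕ) (x a u : ℕ) (σ : List ℕ) :
    (slot s (σ ++ [x]) u).put σ.length a = slot (Function.update s x a) σ u := by
  unfold slot
  by_cases h : u ∈ σ
  · rw [if_pos (List.mem_append_left _ h), if_pos h, List.idxOf_append_of_mem h]
    have h2 : σ.idxOf u < σ.length := List.idxOf_lt_length_iff.2 h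
    simp only [Slot.put]
    rw [if_neg (by omega)]
  · rw [if_neg h]
    by_cases h2 : u = x
    · subst h2
      rw [if_pos (by simp), List.idxOf_append_of_notMem h]
      simp [Slot.put]
    · rw [if_neg (by simp [h, h2])]
      simp [Slot.put, Function.update_of_ne h2]

lemma put_clo (s : ℕ → ℕ) (x a : ℕ) : ∀ (φ : Form) (σ : List ℕ),
    (clo s φ (σ ++ [x])).put a σ.length = clo (Function.update s x a) φ σ := by
  intro φ
  induction φ with
  | bot => intro σ; rfl
  | eq u v =>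
    intro σ
    simp only [clo, DB.put, slot_put]
    rfl
  | zero u =>
    intro σ
    simp only [clo, DB.put, slot_put]
    rfl
  | succ u v =>
    intro σ
    simp only [clo, DB.put, slot_put]
    rfl
  | add u v w =>
    intro σ
    simp only [clo, DB.put, slot_put]
  | mul u v w =>
    intro σ
    simp only [clo, DB.put, slot_put]
  | imp φ ψ ih1 ih2 =>
    intro σ
    simp only [clo, DB.put, ih1, ih2]
  | all y φ ih =>
    intro σ
    have := ih (y :: σ)
    simp only [clo, DB.put]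
    rw [← this]
    rfl

lemma exists_asg : ∀ (x s a : ℕ), ∃ s', asg s' = Function.update (asg s) x a := by
  have tail : ∀ s, ∃ t, ∀ x, asg t x = asg s (x + 1) := by
    intro s
    by_cases hs : s = 0
    · refine ⟨0, fun x => ?_⟩
      subst hs
      rw [R104.asg_zero, R104.asg_zero]
    · refine ⟨(s - 1).unpair.2, fun x => ?_⟩
      conv_rhs => rw [asg]
      rw [if_neg hs]
  intro x
  induction x with
  | zero =>
    intro s a
    obtain ⟨t, ht⟩ := tail s
    refine ⟨Nat.pair a t + 1, ?_⟩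
    funext y
    cases y with
    | zero => rw [R104.asg_cons_zero, Function.update_self]
    | succ y => rw [R104.asg_cons_succ, Function.update_of_ne (by omega), ht]
  | succ x ih =>
    intro s a
    obtain ⟨t, ht⟩ := tail s
    obtain ⟨t', ht'⟩ := ih t a
    refine ⟨Nat.pair (asg s 0) t' + 1, ?_⟩
    funext y
    cases y with
    | zero => rw [R104.asg_cons_zero, Function.update_of_ne (by omega)]
    | succ y =>
      rw [R104.asg_cons_succ, ht']
      by_cases hy : y = x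
      · subst hy
        rw [Function.update_self, Function.update_self]
      · rw [Function.update_of_ne hy, Function.update_of_ne (by omega), ht]

lemma depth_put (a : ℕ) : ∀ (f : DB) (k : ℕ), (f.put a k).depth = f.depth := by
  intro f
  induction f with
  | atom j s t u => intro k; rfl
  | imp f g ih1 ih2 => intro k; simp only [DB.put, DB.depth, ih1, ih2]
  | all f ih => intro k; simp only [DB.put, DB.depth, ih]

lemma depth_pos (f : DB) : 1 ≤ f.depth := by
  cases f <;> simp [DB.depth]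

/-! ### strings of formulas in the standard structure -/

lemma cat_std {u w : List Bool} {x y z : ℕ} (hx : x = num u) (hy : y = num w) (h : Rcat x y z) :
    z = num (u ++ w) := by
  subst hx hy
  exact (R104.Rcat_num u w z).1 h

lemma p1_std {t : List Bool} {y x : ℕ} (h : @P1 Std t y x) : y = num (t ++ varStr x) := by
  have key : ∀ c u : ℕ, @StrV Sy Std t c → Rvs x u → Rcat c u y → y = num (t ++ varStr x) :=
    fun c u h1 h2 h3 => cat_std (strV_std _ _ h1) h2 h3
  obtain ⟨c, u, h1, h2, h3⟩ := h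
  exact key c u h1 h2 h3

lemma p2_std {t : List Bool} {y x x' : ℕ} (h : @P2 Std t y x x') :
    y = num (t ++ varStr x ++ varStr x') := by
  have key : ∀ c u u' w : ℕ, @StrV Sy Std t c → Rvs x u → Rvs x' u' → Rcat c u w → Rcat w u' y →
      y = num (t ++ varStr x ++ varStr x') :=
    fun c u u' w h1 h2 h3 h4 h5 => cat_std (cat_std (strV_std _ _ h1) h2 h4) h3 h5
  obtain ⟨c, u, u', w, h1, h2, h3, h4, h5⟩ := h
  exact key c u u' w h1 h2 h3 h4 h5

lemma p3_std {t : List Bool} {y x x' x'' : ℕ} (h : @P3 Std t y x x' x'') :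
    y = num (t ++ varStr x ++ varStr x' ++ varStr x'') := by
  have key : ∀ c u u' w u'' w' : ℕ, @StrV Sy Std t c → Rvs x u → Rvs x' u' → Rvs x'' u'' →
      Rcat c u w → Rcat w u' w' → Rcat w' u'' y → y = num (t ++ varStr x ++ varStr x' ++ varStr x'') :=
    fun c u u' w u'' w' h1 h2 h3 h4 h5 h6 h7 =>
      cat_std (cat_std (cat_std (strV_std _ _ h1) h2 h5) h3 h6) h4 h7
  obtain ⟨c, u, u', w, u'', w', h1, h2, h3, h4, h5, h6, h7⟩ := h
  exact key c u u' w u'' w' h1 h2 h3 h4 h5 h6 h7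

lemma mem_self {y : ℕ} (h : Rmem y y) : ∃ φ : Form, y = code [φ] := by
  obtain ⟨Γ, φ, _, h2, _⟩ := h
  exact ⟨φ, h2⟩

lemma pi_std {y y1 y2 : ℕ} (h : @PI Std y y1 y2) :
    ∃ φ ψ : Form, y1 = code [φ] ∧ y2 = code [ψ] ∧ y = code [φ.imp ψ] := by
  have key : ∀ c w : ℕ, @StrV Sy Std [true, true, false] c → Rmem y1 y1 → Rmem y2 y2 → Rcat c y1 w →
      Rcat w y2 y → ∃ φ ψ : Form, y1 = code [φ] ∧ y2 = code [ψ] ∧ y = code [φ.imp ψ] := by
    intro c w h1 h2 h3 h4 h5
    obtain ⟨φ, hφ⟩ := mem_self h2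
    obtain ⟨ψ, hψ⟩ := mem_self h3
    refine ⟨φ, ψ, hφ, hψ, ?_⟩
    rw [R104.code_single] at hφ hψ ⊢
    exact cat_std (cat_std (strV_std _ _ h1) hφ h4) hψ h5
  obtain ⟨c, w, h1, h2, h3, h4, h5⟩ := h
  exact key c w h1 h2 h3 h4 h5

lemma pa_std {y x y1 : ℕ} (h : @PA Std y x y1) :
    ∃ φ : Form, y1 = code [φ] ∧ y = code [φ.all x] := by
  have key : ∀ c u w : ℕ, @StrV Sy Std [true, true, true] c → Rvs x u → Rmem y1 y1 → Rcat c u w →
      Rcat w y1 y → ∃ φ : Form, y1 = code [φ] ∧ y = code [φ.all x] := by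
    intro c u w h1 h2 h3 h4 h5
    obtain ⟨φ, hφ⟩ := mem_self h3
    refine ⟨φ, hφ, ?_⟩
    rw [R104.code_single] at hφ ⊢
    exact cat_std (cat_std (strV_std _ _ h1) h2 h4) hφ h5
  obtain ⟨c, u, w, h1, h2, h3, h4, h5⟩ := h
  exact key c u w h1 h2 h3 h4 h5

lemma cl_std {φ : Form} {y s F : ℕ} (hy : y = code [φ]) (h : Rcl y s F) :
    F = (clo (asg s) φ []).code := by
  obtain ⟨ψ, h1, h2⟩ := h
  rw [hy] at h1
  rw [code_inj h1]
  exact h2

/-- the value of an atom -/
lemma tt_atom (k : ℕ) (a b c : ℕ) : Rtt (DB.atom k (.par a) (.par b) (.par c)).code ↔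
    (k = 1 ∧ a = b ∧ c = 0) ∨ (k = 2 ∧ a = 0 ∧ b = 0 ∧ c = 0) ∨ (k = 3 ∧ b = a + 1 ∧ c = 0) ∨
      (k = 4 ∧ a + b = c) ∨ (k = 5 ∧ a * b = c) := by
  constructor
  · rintro (⟨d, h⟩ | h | ⟨d, h⟩ | ⟨d, e, h⟩ | ⟨d, e, h⟩) <;> have h := db_inj h <;>
      simp only [DB.atom.injEq, Slot.par.injEq] at h <;> obtain ⟨h1, h2, h3, h4⟩ := h
    · exact Or.inl ⟨h1, by omega, h4⟩
    · exact Or.inr (Or.inl ⟨h1, h2, h3, h4⟩)
    · exact Or.inr (Or.inr (Or.inl ⟨h1, by omega, h4⟩))
    · exact Or.inr (Or.inr (Or.inr (Or.inl ⟨h1, by omega⟩)))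
    · exact Or.inr (Or.inr (Or.inr (Or.inr ⟨h1, by rw [h2, h3, h4]⟩)))
  · rintro (⟨rfl, rfl, rfl⟩ | ⟨rfl, rfl, rfl, rfl⟩ | ⟨rfl, rfl, rfl⟩ | ⟨rfl, rfl⟩ | ⟨rfl, rfl⟩)
    · exact Or.inl ⟨_, rfl⟩
    · exact Or.inr (Or.inl rfl)
    · exact Or.inr (Or.inr (Or.inl ⟨_, rfl⟩))
    · exact Or.inr (Or.inr (Or.inr (Or.inl ⟨_, _, rfl⟩)))
    · exact Or.inr (Or.inr (Or.inr (Or.inr ⟨_, _, rfl⟩)))

lemma slot_nil (s : ℕ → ℕ) (u : ℕ) : slot s [] u = .par (s u) := by
  simp [slot]

/-! ### the facts, with the domain `ℕ` -/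

lemma k0 (y s F : ℕ) (hy : y = num [false, false, false]) (h : Rcl y s F) : Rat F ∧ ¬ Rtt F := by
  have hy' : y = code [Form.bot] := by rw [R104.code_single]; exact hy
  have hF : F = (clo (asg s) .bot []).code := cl_std hy' h
  refine ⟨⟨0, .par 0, .par 0, .par 0, hF⟩, ?_⟩
  intro ht
  rw [hF] at ht
  simp only [clo] at ht
  rw [tt_atom] at ht
  omega

lemma k0' (y : ℕ) (hy : y = num [false, false, false]) : ∃ s F : ℕ, Rcl y s F := by
  have hy' : y = code [Form.bot] := by rw [R104.code_single]; exact hy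
  exact ⟨0, _, .bot, hy', rfl⟩

lemma k1 (y x x' s F a b : ℕ) (hy : @P2 Std [false, false, true] y x x') (h : Rcl y s F)
    (h1 : Rvv s x a) (h2 : Rvv s x' b) : Rat F ∧ (Rtt F ↔ a = b) := by
  have hy' : y = code [Form.eq x x'] := by rw [R104.code_single]; exact p2_std hy
  have hF : F = (clo (asg s) (.eq x x') []).code := cl_std hy' h
  have h1' : asg s x = a := h1
  have h2' : asg s x' = b := h2
  simp only [clo, slot_nil, h1', h2'] at hF
  refine ⟨⟨_, _, _, _, hF⟩, ?_⟩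
  rw [hF, tt_atom]
  omega

lemma k2 (y x s F a : ℕ) (hy : @P1 Std [false, true, false] y x) (h : Rcl y s F)
    (h1 : Rvv s x a) : Rat F ∧ (Rtt F ↔ a = 0) := by
  have hy' : y = code [Form.zero x] := by rw [R104.code_single]; exact p1_std hy
  have hF : F = (clo (asg s) (.zero x) []).code := cl_std hy' h
  have h1' : asg s x = a := h1
  simp only [clo, slot_nil, h1'] at hF
  refine ⟨⟨_, _, _, _, hF⟩, ?_⟩
  rw [hF, tt_atom]
  omega

lemma k3 (y x x' s F a b : ℕ) (hy : @P2 Std [false, true, true] y x x') (h : Rcl y s F)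
    (h1 : Rvv s x a) (h2 : Rvv s x' b) : Rat F ∧ (Rtt F ↔ b = a + 1) := by
  have hy' : y = code [Form.succ x x'] := by rw [R104.code_single]; exact p2_std hy
  have hF : F = (clo (asg s) (.succ x x') []).code := cl_std hy' h
  have h1' : asg s x = a := h1
  have h2' : asg s x' = b := h2
  simp only [clo, slot_nil, h1', h2'] at hF
  refine ⟨⟨_, _, _, _, hF⟩, ?_⟩
  rw [hF, tt_atom]
  omega

lemma k4 (y x x' x'' s F a b c : ℕ) (hy : @P3 Std [true, false, false] y x x' x'') (h : Rcl y s F)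
    (h1 : Rvv s x a) (h2 : Rvv s x' b) (h3 : Rvv s x'' c) : Rat F ∧ (Rtt F ↔ a + b = c) := by
  have hy' : y = code [Form.add x x' x''] := by rw [R104.code_single]; exact p3_std hy
  have hF : F = (clo (asg s) (.add x x' x'') []).code := cl_std hy' h
  have h1' : asg s x = a := h1
  have h2' : asg s x' = b := h2
  have h3' : asg s x'' = c := h3
  simp only [clo, slot_nil, h1', h2', h3'] at hF
  refine ⟨⟨_, _, _, _, hF⟩, ?_⟩
  rw [hF, tt_atom]
  omega

lemma k5 (y x x' x'' s F a b c : ℕ) (hy : @P3 Std [true, false, true] y x x' x'') (h : Rcl y s F)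
    (h1 : Rvv s x a) (h2 : Rvv s x' b) (h3 : Rvv s x'' c) : Rat F ∧ (Rtt F ↔ a * b = c) := by
  have hy' : y = code [Form.mul x x' x''] := by rw [R104.code_single]; exact p3_std hy
  have hF : F = (clo (asg s) (.mul x x' x'') []).code := cl_std hy' h
  have h1' : asg s x = a := h1
  have h2' : asg s x' = b := h2
  have h3' : asg s x'' = c := h3
  simp only [clo, slot_nil, h1', h2', h3'] at hF
  refine ⟨⟨_, _, _, _, hF⟩, ?_⟩
  rw [hF, tt_atom]
  constructor
  · rintro (h | h | h | h | h)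
    · omega
    · omega
    · omega
    · omega
    · exact h.2
  · intro h
    exact Or.inr (Or.inr (Or.inr (Or.inr ⟨rfl, h⟩)))

lemma k6 (y y1 y2 s F : ℕ) (hy : @PI Std y y1 y2) (h : Rcl y s F) :
    ∃ G H : ℕ, Rcl y1 s G ∧ Rcl y2 s H ∧ Rim G H F := by
  obtain ⟨φ, ψ, h1, h2, h3⟩ := pi_std hy
  have hF : F = (clo (asg s) (φ.imp ψ) []).code := cl_std h3 h
  exact ⟨(clo (asg s) φ []).code, (clo (asg s) ψ []).code, ⟨φ, h1, rfl⟩, ⟨ψ, h2, rfl⟩,
    ⟨_, _, rfl, rfl, hF⟩⟩

lemma k7 (y x y1 s F : ℕ) (hy : @PA Std y x y1) (h : Rcl y s F) :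
    ∃ G : ℕ, Ral G F ∧ ∀ a H : ℕ, Rin G a H → ∃ s' : ℕ, Rvv s' x a ∧
      (∀ x' b : ℕ, x' ≠ x → Rvv s x' b → Rvv s' x' b) ∧ Rcl y1 s' H := by
  obtain ⟨φ, h1, h2⟩ := pa_std hy
  have hF : F = (clo (asg s) (φ.all x) []).code := cl_std h2 h
  refine ⟨(clo (asg s) φ [x]).code, ⟨_, rfl, hF⟩, ?_⟩
  intro a H hH
  obtain ⟨g, hg, hH⟩ := hH
  have hg' := db_inj hg
  subst hg'
  obtain ⟨s', hs'⟩ := exists_asg x s a
  refine ⟨s', ?_, ?_, ⟨φ, h1, ?_⟩⟩
  · show asg s' x = a
    rw [hs', Function.update_self]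
  · intro x' b hx hb
    show asg s' x' = b
    rw [hs', Function.update_of_ne hx]
    exact hb
  · rw [hH, hs']
    have := put_clo (asg s) x a φ []
    simp only [List.nil_append, List.length_nil] at this
    rw [this]

lemma d0 (k F : ℕ) (hk : k = 0) : ¬ Rdp F k := by
  rintro ⟨f, _, h2⟩
  have := depth_pos f
  omega

lemma d1 (k F : ℕ) (h : Rdp F k) : Rat F ∨ (∃ G H : ℕ, Rim G H F) ∨ ∃ G : ℕ, Ral G F := by
  obtain ⟨f, h1, _⟩ := h
  cases f with
  | atom j a b c => exact Or.inl ⟨_, _, _, _, h1⟩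
  | imp f g => exact Or.inr (Or.inl ⟨_, _, _, _, rfl, rfl, h1⟩)
  | all f => exact Or.inr (Or.inr ⟨_, _, rfl, h1⟩)

lemma d2 (F G H K : ℕ) : (Rat F → ¬ Rim G H F) ∧ (Rat F → ¬ Ral G F) ∧ (Rim G H F → ¬ Ral K F) := by
  refine ⟨?_, ?_, ?_⟩
  · rintro ⟨k, a, b, c, h1⟩ ⟨g, h, _, _, h2⟩
    rw [h1] at h2
    exact absurd (db_inj h2) (by simp)
  · rintro ⟨k, a, b, c, h1⟩ ⟨g, _, h2⟩
    rw [h1] at h2
    exact absurd (db_inj h2) (by simp)
  · rintro ⟨g, h, _, _, h1⟩ ⟨g', _, h2⟩
    rw [h1] at h2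
    exact absurd (db_inj h2) (by simp)

lemma d3 (F G H G' H' : ℕ) : (Rim G H F → Rim G' H' F → G = G' ∧ H = H') ∧
    (Ral G F → Ral G' F → G = G') := by
  constructor
  · rintro ⟨g, h, e1, e2, h1⟩ ⟨g', h', e3, e4, h2⟩
    rw [h1] at h2
    have := db_inj h2
    simp only [DB.imp.injEq] at this
    rw [e1, e2, e3, e4, this.1, this.2]
    exact ⟨rfl, rfl⟩
  · rintro ⟨g, e1, h1⟩ ⟨g', e3, h2⟩
    rw [h1] at h2
    have := db_inj h2
    simp only [DB.all.injEq] at this
    rw [e1, e3, this]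

lemma d4 (k k' F G H : ℕ) (hk : k' = k + 1) (hd : Rdp F k') (hi : Rim G H F) :
    Rdp G k ∧ Rdp H k := by
  obtain ⟨f, hf, hd⟩ := hd
  obtain ⟨g, h, e1, e2, h1⟩ := hi
  rw [h1] at hf
  have := db_inj hf
  subst this
  simp only [DB.depth] at hd
  have a1 := le_max_left g.depth h.depth
  have a2 := le_max_right g.depth h.depth
  exact ⟨⟨g, e1, by omega⟩, ⟨h, e2, by omega⟩⟩

lemma d5 (k k' F G a H : ℕ) (hk : k' = k + 1) (hd : Rdp F k') (hi : Ral G F) (hH : Rin G a H) :
    Rdp H k := by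
  obtain ⟨f, hf, hd⟩ := hd
  obtain ⟨g, e1, h1⟩ := hi
  obtain ⟨g', e2, h2⟩ := hH
  rw [h1] at hf
  have := db_inj hf
  subst this
  rw [e1] at e2
  have := db_inj e2
  subst this
  simp only [DB.depth] at hd
  exact ⟨_, h2, by rw [depth_put]; omega⟩

lemma d6 (k k' F : ℕ) (hk : k' = k + 1) (hd : Rdp F k) : Rdp F k' := by
  obtain ⟨f, hf, hd⟩ := hd
  exact ⟨f, hf, by omega⟩

lemma d7 (F G a : ℕ) (h : Ral G F) : ∃ H : ℕ, Rin G a H := by
  obtain ⟨g, e1, _⟩ := h
  exact ⟨_, g, e1, rfl⟩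

lemma d8 (G a H H' : ℕ) (h : Rin G a H) (h' : Rin G a H') : H = H' := by
  obtain ⟨g, e1, h1⟩ := h
  obtain ⟨g', e2, h2⟩ := h'
  rw [e1] at e2
  have := db_inj e2
  subst this
  rw [h1, h2]

end J196

theorem std_k0 : ∀ y s F, StrV Std [false, false, false] y → Std.r3 .cl y s F →
    Std.r1 .at F ∧ ¬ Std.r1 .tt F :=
  fun y s F hy h => J196.k0 y s F (J196.strV_std _ _ hy) h

theorem std_k0' : ∀ y, StrV Std [false, false, false] y → ∃ s F, Std.r3 .cl y s F :=
  fun y hy => J196.k0' y (J196.strV_std _ _ hy)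

theorem std_k1 : ∀ y x x' s F a b, P2 Std [false, false, true] y x x' →
    Std.r3 .cl y s F → Std.r3 .vv s x a → Std.r3 .vv s x' b → Std.r1 .at F ∧ (Std.r1 .tt F ↔ a = b) :=
  fun y x x' s F a b hy h h1 h2 => J196.k1 y x x' s F a b hy h h1 h2

theorem std_k2 : ∀ y x s F a, P1 Std [false, true, false] y x →
    Std.r3 .cl y s F → Std.r3 .vv s x a → Std.r1 .at F ∧ (Std.r1 .tt F ↔ Std.zero a) :=
  fun y x s F a hy h h1 => J196.k2 y x s F a hy h h1

theorem std_k3 : ∀ y x x' s F a b, P2 Std [false, true, true] y x x' →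
    Std.r3 .cl y s F → Std.r3 .vv s x a → Std.r3 .vv s x' b → Std.r1 .at F ∧ (Std.r1 .tt F ↔ Std.succ a b) :=
  fun y x x' s F a b hy h h1 h2 => J196.k3 y x x' s F a b hy h h1 h2

theorem std_k4 : ∀ y x x' x'' s F a b c, P3 Std [true, false, false] y x x' x'' →
    Std.r3 .cl y s F → Std.r3 .vv s x a → Std.r3 .vv s x' b → Std.r3 .vv s x'' c →
    Std.r1 .at F ∧ (Std.r1 .tt F ↔ Std.add a b c) :=
  fun y x x' x'' s F a b c hy h h1 h2 h3 => J196.k4 y x x' x'' s F a b c hy h h1 h2 h3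

theorem std_k5 : ∀ y x x' x'' s F a b c, P3 Std [true, false, true] y x x' x'' →
    Std.r3 .cl y s F → Std.r3 .vv s x a → Std.r3 .vv s x' b → Std.r3 .vv s x'' c →
    Std.r1 .at F ∧ (Std.r1 .tt F ↔ Std.mul a b c) :=
  fun y x x' x'' s F a b c hy h h1 h2 h3 => J196.k5 y x x' x'' s F a b c hy h h1 h2 h3

theorem std_k6 : ∀ y y1 y2 s F, PI Std y y1 y2 → Std.r3 .cl y s F →
    ∃ G H, Std.r3 .cl y1 s G ∧ Std.r3 .cl y2 s H ∧ Std.r3 .im G H F :=
  fun y y1 y2 s F hy h => J196.k6 y y1 y2 s F hy h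

theorem std_k7 : ∀ y x y1 s F, PA Std y x y1 → Std.r3 .cl y s F →
    ∃ G, Std.r2 .al G F ∧ ∀ a H, Std.r3 .ins G a H → ∃ s', Std.r3 .vv s' x a ∧
      (∀ x' b, x' ≠ x → Std.r3 .vv s x' b → Std.r3 .vv s' x' b) ∧ Std.r3 .cl y1 s' H :=
  fun y x y1 s F hy h => J196.k7 y x y1 s F hy h

theorem std_d0 : ∀ k F, Std.zero k → ¬ Std.r2 .dp F k :=
  fun k F hk => J196.d0 k F hk

theorem std_d1 : ∀ k F, Std.r2 .dp F k → Std.r1 .at F ∨ (∃ G H, Std.r3 .im G H F) ∨ ∃ G, Std.r2 .al G F :=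
  fun k F h => J196.d1 k F h

theorem std_d2 : ∀ F G H K, (Std.r1 .at F → ¬ Std.r3 .im G H F) ∧
    (Std.r1 .at F → ¬ Std.r2 .al G F) ∧ (Std.r3 .im G H F → ¬ Std.r2 .al K F) :=
  fun F G H K => J196.d2 F G H K

theorem std_d3 : ∀ F G H G' H', (Std.r3 .im G H F → Std.r3 .im G' H' F → G = G' ∧ H = H') ∧
    (Std.r2 .al G F → Std.r2 .al G' F → G = G') :=
  fun F G H G' H' => J196.d3 F G H G' H'

theorem std_d4 : ∀ k k' F G H, Std.succ k k' → Std.r2 .dp F k' → Std.r3 .im G H F →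
    Std.r2 .dp G k ∧ Std.r2 .dp H k :=
  fun k k' F G H hk hd hi => J196.d4 k k' F G H hk hd hi

theorem std_d5 : ∀ k k' F G a H, Std.succ k k' → Std.r2 .dp F k' → Std.r2 .al G F →
    Std.r3 .ins G a H → Std.r2 .dp H k :=
  fun k k' F G a H hk hd hi hH => J196.d5 k k' F G a H hk hd hi hH

theorem std_d6 : ∀ k k' F, Std.succ k k' → Std.r2 .dp F k → Std.r2 .dp F k' :=
  fun k k' F hk hd => J196.d6 k k' F hk hd

theorem std_d7 : ∀ F G a, Std.r2 .al G F → ∃ H, Std.r3 .ins G a H :=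
  fun F G a h => J196.d7 F G a h

theorem std_d8 : ∀ G a H H', Std.r3 .ins G a H → Std.r3 .ins G a H' → H = H' :=
  fun G a H H' h h' => J196.d8 G a H H' h h'

end Pool.Agent.TH672
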