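import Pool.Agent.H703R3.MBBody

/-!
# Inner billiards in the body of revolution `‖x‖² + x_k⁴ ≤ 1` preserve the angular momentum
`x_i v_j - x_j v_i`, `i, j ≠ k`
-/

set_option autoImplicit false

open Set Filter Topology
open scoped RealInnerProductSpace ContDiff

namespace Pool.Agent.TH311.MB

open Pool.Agent.H703R3.MB

variable {n : ℕ}

/-- the function `‖x‖² + x_k⁴` -/
noncomputable def fi (k : Fin n) (x : Euc n) : ℝ := ‖x‖ ^ 2 + (x k) ^ 4

/-- its gradient -/
noncomputable def gi (k : Fin n) (x : Euc n) : Euc n :=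
  (2 : ℝ) • x + EuclideanSpace.single k (4 * (x k) ^ 3)

theorem gi_inner (k : Fin n) (x w : Euc n) :
    ⟪gi k x, w⟫ = 2 * ⟪x, w⟫ + 4 * (x k) ^ 3 * w k := by
  unfold gi
  rw [inner_add_left, real_inner_smul_left, EuclideanSpace.inner_single_left]
  simp

theorem gi_apply (k i : Fin n) (h : i ≠ k) (x : Euc n) : gi k x i = 2 * x i := by
  unfold gi
  simp [h]

theorem goodi (k : Fin n) : Good (fi k) (gi k) where
  cd := by
    unfold fi
    have h1 : ContDiff ℝ ∞ fun x : Euc n => ‖x‖ ^ 2 := contDiff_norm_sq ℝ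
    have h2 : ContDiff ℝ ∞ fun x : Euc n => (x k) ^ 4 := by fun_prop
    exact h1.add h2
  line := by
    intro x w
    refine ⟨‖w‖ ^ 2 + 6 * (x k) ^ 2 * (w k) ^ 2, 4 * x k * (w k) ^ 3, (w k) ^ 4, ?_, ?_, ?_⟩
    · nlinarith [mul_nonneg (sq_nonneg (x k)) (sq_nonneg (w k))]
    · have h : 0 ≤ (w k) ^ 2 * (6 * (x k) ^ 2 + 4 * x k * w k + (w k) ^ 2) := by
        apply mul_nonneg (sq_nonneg _)
        nlinarith [sq_nonneg (2 * x k + w k), sq_nonneg (x k)]
      nlinarith [h]
    · intro s
      unfold fi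
      rw [gi_inner]
      have h1 : ‖x + s • w‖ ^ 2 = ‖x‖ ^ 2 + 2 * s * ⟪x, w⟫ + s ^ 2 * ‖w‖ ^ 2 := by
        rw [norm_add_sq_real, real_inner_smul_right, norm_smul, mul_pow, Real.norm_eq_abs, sq_abs]
        ring
      rw [h1]
      simp only [PiLp.add_apply, PiLp.smul_apply, smul_eq_mul]
      ring
  lower := by
    intro x
    unfold fi
    nlinarith [sq_nonneg ((x k) ^ 2)]
  zero := by simp [fi]
  pos := by
    intro x hx
    rw [gi_inner, real_inner_self_eq_norm_sq]
    have h0 : 0 < ‖x‖ := by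
      refine norm_pos_iff.2 ?_
      rintro rfl
      simp [fi] at hx
    have h1 : 4 * (x k) ^ 3 * x k = 4 * (x k) ^ 4 := by ring
    rw [h1]
    positivity

theorem not_elli {j k : Fin n} (hjk : j ≠ k) : ¬ IsEllipsoid (Body (fi k)) := by
  refine (goodi k).not_isEllipsoid (p := EuclideanSpace.single j (1 : ℝ))
    (q := EuclideanSpace.single k (1 : ℝ)) ?_ ?_ ?_
  · intro x
    unfold fi
    rw [norm_neg]
    simp only [PiLp.neg_apply]
    ring
  · simp
  · intro a b
    unfold fi
    rw [norm_add_sq_real, norm_smul, norm_smul, real_inner_smul_left,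
      real_inner_smul_right, EuclideanSpace.inner_single_left]
    simp [hjk, hjk.symm]

/-- angular momentum of an oriented line -/
noncomputable def mom (i j : Fin n) (l : Euc n × Euc n) : ℝ := l.1 i * l.2 j - l.1 j * l.2 i

theorem contDiff_mom (i j : Fin n) : ContDiff ℝ ∞ (mom i j : Euc n × Euc n → ℝ) := by
  unfold mom
  fun_prop

/-- the foot point representation of a line -/
theorem lineThrough_line {p v : Euc n} (hv : ‖v‖ = 1) (hp : ⟪p, v⟫ = 0) (t : ℝ) :
    lineThrough (p + t • v) v = (p, v) := by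
  unfold lineThrough
  rw [inner_add_left, real_inner_smul_left, real_inner_self_eq_norm_sq, hv, hp]
  simp

theorem mom_lineThrough (i j : Fin n) (x v : Euc n) :
    mom i j (lineThrough x v) = x i * v j - x j * v i := by
  unfold mom lineThrough
  simp only [PiLp.sub_apply, PiLp.smul_apply, smul_eq_mul]
  ring

section Body

variable {f : Euc n → ℝ} {g : Euc n → Euc n}

/-- the line through the boundary point `x` with a direction `v` with `⟪g x, v⟫ ≠ 0` meets the
interior -/
theorem meets_neg (h : Good f g) {x v : Euc n} (hx : f x = 1) (hv : 0 < ⟪g x, v⟫) :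
    ∃ s : ℝ, 0 < s ∧ x - s • v ∈ interior (Body f) := by
  have h1 : ⟪g x, -v⟫ < 0 := by
    rw [inner_neg_right]
    linarith
  obtain ⟨s, hs, h2⟩ := h.exists_lt h1
  refine ⟨s, hs, ?_⟩
  rw [h.interior_body]
  show f _ < 1
  rw [← hx]
  simpa [sub_eq_add_neg] using h2

theorem meets_pos (h : Good f g) {x v : Euc n} (hx : f x = 1) (hv : ⟪g x, v⟫ < 0) :
    ∃ s : ℝ, 0 < s ∧ x + s • v ∈ interior (Body f) := by
  obtain ⟨s, hs, h2⟩ := h.exists_lt hv
  refine ⟨s, hs, ?_⟩
  rw [h.interior_body]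
  show f _ < 1
  rw [← hx]
  exact h2

theorem lineThrough_mem {x v : Euc n} (hv : ‖v‖ = 1) {s : ℝ} {Ω : Set (Euc n)}
    (hs : x + s • v ∈ interior Ω) : lineThrough x v ∈ lines Ω := by
  refine ⟨hv, ?_, s + ⟪x, v⟫, ?_⟩
  · show ⟪x - ⟪x, v⟫ • v, v⟫ = 0
    rw [inner_sub_left, real_inner_smul_left, real_inner_self_eq_norm_sq, hv]
    ring
  · show x - ⟪x, v⟫ • v + (s + ⟪x, v⟫) • v ∈ interior Ω
    rw [add_smul]
    have : x - ⟪x, v⟫ • v + (s • v + ⟪x, v⟫ • v) = x + s • v := by abel
    rw [this]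
    exact hs

/-- exit point characterisation -/
theorem exit_eq (h : Good f g) {x v p : Euc n} (hx : f x = 1) (hgv : 0 < ⟪g x, v⟫) {t : ℝ}
    (ht : x = p + t • v) : exitPoint (Body f) (p, v) = x := by
  have hs : sSup {s : ℝ | p + s • v ∈ Body f} = t := by
    have hmem : t ∈ {s : ℝ | p + s • v ∈ Body f} := by
      show f (p + t • v) ≤ 1
      rw [← ht, hx]
    have hub : t ∈ upperBounds {s : ℝ | p + s • v ∈ Body f} := by
      intro s hs
      by_contra hcon
      push Not at hcon
      have h1 : f (p + s • v) ≤ 1 := hs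
      have e : p + s • v = x + (s - t) • v := by
        rw [ht, sub_smul]
        abel
      have h2 := h.ge x (p + s • v)
      rw [e, add_sub_cancel_left, real_inner_smul_right, hx] at h2
      rw [e] at h1
      have h3 : 0 < (s - t) * ⟪g x, v⟫ := mul_pos (by linarith) hgv
      have h4 : 0 ≤ ‖(s - t) • v‖ ^ 2 := by positivity
      linarith
    exact (IsLUB.csSup_eq ⟨hub, fun b hb => hb hmem⟩ ⟨t, hmem⟩)
  unfold exitPoint
  show p + sSup {s : ℝ | p + s • v ∈ Body f} • v = x
  rw [hs, ht]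

/-- each line of the phase space has an exit point -/
theorem exists_exit (h : Good f g) {p v : Euc n} (hv : ‖v‖ = 1) {t : ℝ}
    (ht : p + t • v ∈ interior (Body f)) :
    ∃ s : ℝ, t < s ∧ f (p + s • v) = 1 ∧ 0 < ⟪g (p + s • v), v⟫ := by
  rw [h.interior_body] at ht
  have ht' : f (p + t • v) < 1 := ht
  have hc : Continuous fun s : ℝ => f (p + s • v) := h.continuous.comp (by fun_prop)
  -- far away f is large
  set R : ℝ := |t| + ‖p‖ + 2 with hR
  have hfar : 1 ≤ f (p + R • v) := by
    have h1 := h.lower (p + R • v)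
    have h2 : ‖R • v‖ ≤ ‖p + R • v‖ + ‖p‖ := by
      have : R • v = (p + R • v) - p := by abel
      calc ‖R • v‖ = ‖(p + R • v) - p‖ := by rw [← this]
        _ ≤ _ := norm_sub_le _ _
    rw [norm_smul, hv, mul_one, Real.norm_eq_abs] at h2
    have h3 : R ≤ |R| := le_abs_self _
    have h4 : 2 ≤ ‖p + R • v‖ := by
      have := abs_nonneg t
      linarith
    nlinarith
  have htR : t ≤ R := by
    have := le_abs_self t
    have := norm_nonneg p
    linarith
  obtain ⟨s, hs, hfs⟩ := intermediate_value_Icc htR hc.continuousOn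
    (show (1 : ℝ) ∈ Icc (f (p + t • v)) (f (p + R • v)) from ⟨ht'.le, hfar⟩)
  have hts : t < s := by
    rcases hs.1.eq_or_lt with h1 | h1
    · exfalso
      have hfs' : f (p + s • v) = 1 := hfs
      rw [← h1] at hfs'
      linarith
    · exact h1
  refine ⟨s, hts, hfs, ?_⟩
  have h2 := h.ge (p + s • v) (p + t • v)
  have e : (p + t • v) - (p + s • v) = (t - s) • v := by
    rw [sub_smul]
    abel
  have hfs' : f (p + s • v) = 1 := hfs
  rw [e, real_inner_smul_right, hfs'] at h2
  have h4 : 0 ≤ ‖(t - s) • v‖ ^ 2 := by positivity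
  by_contra hcon
  push Not at hcon
  have : 0 ≤ (t - s) * ⟪g (p + s • v), v⟫ := mul_nonneg_of_nonpos_of_nonpos (by linarith) hcon
  linarith

/-- the reflected direction -/
noncomputable def refl (u v : Euc n) : Euc n := v - (2 * ⟪v, u⟫) • u

theorem refl_norm {u v : Euc n} (hu : ‖u‖ = 1) (hv : ‖v‖ = 1) : ‖refl u v‖ = 1 := by
  have h1 : ‖refl u v‖ ^ 2 = 1 := by
    unfold refl
    rw [norm_sub_sq_real, norm_smul, real_inner_smul_right, hv, hu, mul_one, Real.norm_eq_abs,
      sq_abs]
    ring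
  nlinarith [norm_nonneg (refl u v)]

theorem refl_refl {u v : Euc n} (hu : ‖u‖ = 1) : refl u (refl u v) = v := by
  unfold refl
  rw [inner_sub_left, real_inner_smul_left, real_inner_self_eq_norm_sq, hu]
  have : 2 * (⟪v, u⟫ - 2 * ⟪v, u⟫ * 1 ^ 2) = - (2 * ⟪v, u⟫) := by ring
  rw [this, neg_smul]
  abel

theorem inner_refl {u v : Euc n} (hu : ‖u‖ = 1) : ⟪u, refl u v⟫ = - ⟪u, v⟫ := by
  unfold refl
  rw [inner_sub_right, real_inner_smul_right, real_inner_self_eq_norm_sq, hu, real_inner_comm]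
  ring

/-- The billiard map in terms of exit point and gradient -/
theorem billiard_eq (h : Good f g) {x v p : Euc n} (hx : f x = 1) (hgv : 0 < ⟪g x, v⟫) {t : ℝ}
    (ht : x = p + t • v) :
    billiardMap (Body f) (p, v) = lineThrough x (refl (‖g x‖⁻¹ • g x) v) := by
  unfold billiardMap
  rw [exit_eq h hx hgv ht, h.outerNormal_eq hx]
  rfl

end Body

/-- reflection preserves the moment in a body of revolution -/
theorem mom_refl {k i j : Fin n} (hi : i ≠ k) (hj : j ≠ k) (x v : Euc n) (c : ℝ) :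
    x i * (refl (c • gi k x) v) j - x j * (refl (c • gi k x) v) i = x i * v j - x j * v i := by
  unfold refl
  simp only [PiLp.sub_apply, PiLp.smul_apply, smul_eq_mul, gi_apply k i hi, gi_apply k j hj]
  ring

/-- the invariant hypersurface: lines with angular momentum `1 / 2` -/
def Si (i j k : Fin n) : Set (Euc n × Euc n) := lines (Body (fi k)) ∩ {l | mom i j l = 1 / 2}

theorem norm_nu {k : Fin n} {x : Euc n} (hx : fi k x = 1) : ‖‖gi k x‖⁻¹ • gi k x‖ = 1 := by
  have h0 : 0 < ‖gi k x‖ := norm_pos_iff.2 ((goodi k).g_ne_zero hx)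
  rw [norm_smul, norm_inv, norm_norm, inv_mul_cancel₀ h0.ne']

theorem isInvariant {i j k : Fin n} (hij : i ≠ j) (hi : i ≠ k) (hj : j ≠ k) :
    IsInvariantHypersurface (Body (fi k)) (Si i j k) where
  nonempty := by
    refine ⟨(EuclideanSpace.single i (1 / 2 : ℝ), EuclideanSpace.single j (1 : ℝ)), ⟨?_, ?_, ?_⟩, ?_⟩
    · simp
    · show ⟪EuclideanSpace.single i (1 / 2 : ℝ), EuclideanSpace.single j (1 : ℝ)⟫ = 0
      rw [EuclideanSpace.inner_single_left]
      simp [hij]
    · refine ⟨0, ?_⟩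
      rw [(goodi k).interior_body]
      show fi k _ < 1
      unfold fi
      simp [hi]
      norm_num
    · show mom i j _ = 1 / 2
      unfold mom
      simp [hij, hij.symm]
  subset := fun l hl => hl.1
  closed := ⟨_, isClosed_eq (contDiff_mom i j).continuous continuous_const, rfl⟩
  smooth := by
    intro l hl
    refine ⟨fun l' => mom i j l' - 1 / 2, (contDiff_mom i j).sub contDiff_const, ?_, ?_⟩
    · refine Eventually.of_forall fun l' hl' => ?_
      constructor
      · intro h
        have h2 : mom i j l' = 1 / 2 := h.2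
        show mom i j l' - 1 / 2 = 0
        rw [h2, sub_self]
      · intro h
        have h2 : mom i j l' = 1 / 2 := by
          have : mom i j l' - 1 / 2 = 0 := h
          linarith
        exact ⟨hl', h2⟩
    · obtain ⟨⟨h1, h2, h3⟩, h4⟩ := hl
      refine ⟨(l.1, 0), ⟨?_, ?_⟩, ?_⟩
      · simp
      · simp [h2]
      · intro h0
        have hd : HasFDerivAt (fun l' : Euc n × Euc n => mom i j l' - 1 / 2)
            (fderiv ℝ (fun l' : Euc n × Euc n => mom i j l' - 1 / 2) l) l :=
          (((contDiff_mom i j).sub contDiff_const).differentiable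
            (by simp)).differentiableAt.hasFDerivAt
        have hl' : HasDerivAt (fun s : ℝ => l + s • ((l.1, 0) : Euc n × Euc n)) (l.1, 0) 0 := by
          simpa using ((hasDerivAt_id (0 : ℝ)).smul_const
            ((l.1, 0) : Euc n × Euc n)).const_add l
        have hc : HasDerivAt (fun s : ℝ => mom i j (l + s • ((l.1, 0) : Euc n × Euc n)) - 1 / 2)
            (fderiv ℝ (fun l' : Euc n × Euc n => mom i j l' - 1 / 2) l (l.1, 0)) 0 :=
          HasFDerivAt.comp_hasDerivAt (x := (0 : ℝ))
            (f := fun s : ℝ => l + s • ((l.1, 0) : Euc n × Euc n))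
            (l := fun l' : Euc n × Euc n => mom i j l' - 1 / 2)
            (l' := fderiv ℝ (fun l' : Euc n × Euc n => mom i j l' - 1 / 2) l)
            (by simpa using hd) hl'
        rw [h0] at hc
        have h4' : l.1 i * l.2 j - l.1 j * l.2 i = 1 / 2 := h4
        have e : (fun s : ℝ => mom i j (l + s • ((l.1, 0) : Euc n × Euc n)) - 1 / 2) =
            fun s => 0 + s * (1 / 2) + s ^ 2 * 0 + s ^ 3 * 0 + s ^ 4 * 0 := by
          ext s
          unfold mom
          simp only [Prod.fst_add, Prod.snd_add, Prod.smul_fst, Prod.smul_snd, smul_zero,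
            add_zero, PiLp.add_apply, PiLp.smul_apply, smul_eq_mul]
          have : (l.1 i + s * l.1 i) * l.2 j - (l.1 j + s * l.1 j) * l.2 i =
              (1 + s) * (l.1 i * l.2 j - l.1 j * l.2 i) := by ring
          rw [this, h4']
          ring
        rw [e] at hc
        have h8 := hc.unique (poly_deriv 0 (1 / 2) 0 0 0 0)
        norm_num at h8
  invariant := by
    have hg := goodi k
    apply Subset.antisymm
    · rintro _ ⟨⟨p, v⟩, ⟨⟨hv, hp, t, ht⟩, hm⟩, rfl⟩
      have hv' : ‖v‖ = 1 := hv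
      have hp' : ⟪p, v⟫ = 0 := hp
      obtain ⟨s, hts, hs1, hs2⟩ := exists_exit hg hv' ht
      rw [billiard_eq hg hs1 hs2 rfl]
      set x := p + s • v with hx
      have hu := norm_nu hs1
      refine ⟨?_, ?_⟩
      · obtain ⟨r, hr, hr2⟩ := meets_pos hg (x := x) (v := refl (‖gi k x‖⁻¹ • gi k x) v) hs1 (by
          have h0 : 0 < ‖gi k x‖ := norm_pos_iff.2 (hg.g_ne_zero hs1)
          have h1 := inner_refl (v := v) hu
          rw [real_inner_smul_left, real_inner_smul_left] at h1
          have h2 : ‖gi k x‖⁻¹ * ⟪gi k x, refl (‖gi k x‖⁻¹ • gi k x) v⟫ < 0 := by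
            rw [h1]
            have : 0 < ‖gi k x‖⁻¹ * ⟪gi k x, v⟫ := by positivity
            linarith
          by_contra hcon
          push Not at hcon
          have : 0 ≤ ‖gi k x‖⁻¹ * ⟪gi k x, refl (‖gi k x‖⁻¹ • gi k x) v⟫ := by positivity
          linarith)
        exact lineThrough_mem (refl_norm hu hv') hr2
      · show mom i j _ = 1 / 2
        rw [mom_lineThrough, mom_refl hi hj]
        have hm' : p i * v j - p j * v i = 1 / 2 := hm
        rw [hx]
        simp only [PiLp.add_apply, PiLp.smul_apply, smul_eq_mul]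
        linarith
    · rintro ⟨p, v⟩ ⟨⟨hv, hp, t, ht⟩, hm⟩
      have hv' : ‖v‖ = 1 := hv
      have hp' : ⟪p, v⟫ = 0 := hp
      -- entry point
      obtain ⟨s, hts, hs1, hs2⟩ := exists_exit (p := p) (v := -v) (t := -t) hg
        (by rw [norm_neg]; exact hv') (by simpa using ht)
      have e1 : p + s • (-v) = p + (-s) • v := by simp
      rw [e1] at hs1 hs2
      set x := p + (-s) • v with hx
      have hu := norm_nu hs1
      set u := ‖gi k x‖⁻¹ • gi k x with hud
      have h0 : 0 < ‖gi k x‖ := norm_pos_iff.2 (hg.g_ne_zero hs1)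
      have h3 : ⟪gi k x, v⟫ < 0 := by
        rw [inner_neg_right] at hs2
        linarith
      -- the incoming direction
      set w := refl u v with hw
      have hgw : 0 < ⟪gi k x, w⟫ := by
        have h1 := inner_refl (v := v) hu
        rw [hud, real_inner_smul_left, real_inner_smul_left, ← hud, ← hw] at h1
        have h2 : 0 < ‖gi k x‖⁻¹ * ⟪gi k x, w⟫ := by
          rw [h1]
          have : ‖gi k x‖⁻¹ * ⟪gi k x, v⟫ < 0 := mul_neg_of_pos_of_neg (by positivity) h3
          linarith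
        exact pos_of_mul_pos_right h2 (by positivity)
      have hwn : ‖w‖ = 1 := refl_norm hu hv'
      obtain ⟨r, hr, hr2⟩ := meets_neg hg hs1 hgw
      have hr2' : x + (-r) • w ∈ interior (Body (fi k)) := by
        rw [neg_smul, ← sub_eq_add_neg]
        exact hr2
      have hlx : x = (lineThrough x w).1 + ⟪x, w⟫ • (lineThrough x w).2 := by
        unfold lineThrough
        simp
      refine ⟨lineThrough x w, ⟨lineThrough_mem hwn hr2', ?_⟩, ?_⟩
      · show mom i j _ = 1 / 2
        rw [mom_lineThrough, hw, hud, mom_refl hi hj]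
        have hm' : p i * v j - p j * v i = 1 / 2 := hm
        rw [hx]
        simp only [PiLp.add_apply, PiLp.smul_apply, smul_eq_mul]
        linarith
      · have h5 : billiardMap (Body (fi k)) (lineThrough x w) =
            lineThrough x (refl (‖gi k x‖⁻¹ • gi k x) w) :=
          billiard_eq hg (p := (lineThrough x w).1) (v := w) hs1 hgw (t := ⟪x, w⟫) hlx
        rw [h5, ← hud, hw, refl_refl hu, hx]
        exact lineThrough_line hv' hp' _

/-- the exit point of a line of the phase space is the last point of the line in the table, it is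
a boundary point, and there is exactly one outer unit normal at it -/
theorem exit_spec (k : Fin n) {l : Euc n × Euc n} (hl : l ∈ lines (Body (fi k))) :
    exitPoint (Body (fi k)) l ∈ frontier (Body (fi k)) ∧
      (∃ t : ℝ, exitPoint (Body (fi k)) l = l.1 + t • l.2 ∧
        ∀ s : ℝ, t < s → l.1 + s • l.2 ∉ Body (fi k)) ∧
      ∃! ν, IsOuterNormal (Body (fi k)) (exitPoint (Body (fi k)) l) ν := by
  obtain ⟨p, v⟩ := l
  obtain ⟨hv, hp, t, ht⟩ := hl
  have hg := goodi k
  obtain ⟨s, hts, hs1, hs2⟩ := exists_exit hg (show ‖v‖ = 1 from hv) ht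
  have he := exit_eq hg hs1 hs2 (p := p) rfl
  rw [he, hg.frontier_body]
  refine ⟨hs1, ⟨s, rfl, ?_⟩, ‖gi k (p + s • v)‖⁻¹ • gi k (p + s • v),
    (hg.isOuterNormal_iff hs1).2 rfl, fun ν hν => (hg.isOuterNormal_iff hs1).1 hν⟩
  intro r hr hcon
  have h1 : fi k (p + r • v) ≤ 1 := hcon
  have e : p + r • v = (p + s • v) + (r - s) • v := by
    rw [sub_smul]
    abel
  have h2 := hg.ge (p + s • v) (p + r • v)
  rw [e, add_sub_cancel_left, real_inner_smul_right, hs1] at h2
  rw [e] at h1
  have h3 : 0 < (r - s) * ⟪gi k (p + s • v), v⟫ := mul_pos (by linarith) hs2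
  have h4 : 0 ≤ ‖(r - s) • v‖ ^ 2 := by positivity
  linarith

/-- Q1 -/
theorem q1 (n : ℕ) (hn : 3 ≤ n) : ∃ Ω : Set (Euc n), IsTable Ω ∧ ¬ IsEllipsoid Ω ∧
    (∀ l ∈ lines Ω, exitPoint Ω l ∈ frontier Ω ∧ ∃! ν, IsOuterNormal Ω (exitPoint Ω l) ν) ∧
    ∃ S : Set (Euc n × Euc n), IsInvariantHypersurface Ω S := by
  have h1 : (⟨0, by omega⟩ : Fin n) ≠ ⟨1, by omega⟩ := by simp
  have h2 : (⟨0, by omega⟩ : Fin n) ≠ ⟨2, by omega⟩ := by simp
  have h3 : (⟨1, by omega⟩ : Fin n) ≠ ⟨2, by omega⟩ := by simp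
  exact ⟨Body (fi ⟨2, by omega⟩), (goodi _).isTable, not_elli h2,
    fun l hl => ⟨(exit_spec _ hl).1, (exit_spec _ hl).2.2⟩, Si _ _ _, isInvariant h1 h2 h3⟩

end Pool.Agent.TH311.MB
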